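import Pool.Agent.TH847.LG.Pack

/-! Integers with prescribed absolute values, up to a constant. -/

set_option autoImplicit false

namespace Pool.Agent.TH847.LG

open NumberField Finset Pool.Agent.TH847.LS NumberField.InfinitePlace
open scoped Classical nonZeroDivisors

variable {K : Type} [Field K] [NumberField K]

theorem sum_Lw {z : K} (hz : z ≠ 0) : ∑ w : InfinitePlace K, (mult w : ℝ) * Lw w z = 0 := by
  unfold Lw
  simp only [mul_sub, Finset.sum_sub_distrib]
  rw [← log_norm hz, ← Finset.sum_mul]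
  have h3 : (∑ w : InfinitePlace K, (mult w : ℝ)) = Module.finrank ℚ K := by
    have := InfinitePlace.sum_mult_eq (K := K)
    exact_mod_cast this
  have h4 : ((Module.finrank ℚ K : ℕ) : ℝ) ≠ 0 := by
    exact_mod_cast (Module.finrank_pos (R := ℚ) (M := K)).ne'
  rw [h3]
  field_simp
  ring

theorem approx (s : InfinitePlace K → ℝ) (hs : ∑ w : InfinitePlace K, (mult w : ℝ) * s w = 0) :
    ∃ x : 𝓞 K, x ≠ 0 ∧ ∀ w : InfinitePlace K, |Lw w (x : K) - s w| ≤ 2 := by
  set b := mixedEmbedding.latticeBasis K with hb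
  set ρ : ℝ := ∑ i, ‖b i‖ with hρ
  have hρ0 : 0 ≤ ρ := Finset.sum_nonneg fun _ _ => norm_nonneg _
  set R : ℝ := (2 * ρ + 1) * Real.exp (∑ w : InfinitePlace K, |s w|) with hR
  have hR0 : 0 < R := by positivity
  set t : InfinitePlace K → ℝ := fun w => R * Real.exp (s w) with ht
  have ht1 : ∀ w, 2 * ρ + 1 ≤ t w := by
    intro w
    simp only [ht, hR]
    rw [mul_assoc, ← Real.exp_add]
    have h1 : |s w| ≤ ∑ w : InfinitePlace K, |s w| :=
      Finset.single_le_sum (f := fun w : InfinitePlace K => |s w|) (fun _ _ => abs_nonneg _)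
        (Finset.mem_univ w)
    have h2 := neg_abs_le (s w)
    have h3 : 1 ≤ Real.exp (∑ w : InfinitePlace K, |s w| + s w) := by
      rw [← Real.exp_zero]
      exact Real.exp_le_exp.mpr (by linarith)
    nlinarith
  set τ : mixedEmbedding.mixedSpace K := mixedEmbedding.mixedSpaceOfRealSpace t with hτ
  have hmem : ((ZSpan.floor b τ : Submodule.span ℤ (Set.range b)) : mixedEmbedding.mixedSpace K) ∈
      mixedEmbedding.integerLattice K := by
    rw [← mixedEmbedding.mem_span_latticeBasis]
    exact (ZSpan.floor b τ).2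
  obtain ⟨x, hx⟩ := hmem
  have hx' : mixedEmbedding K (x : K) =
      ((ZSpan.floor b τ : Submodule.span ℤ (Set.range b)) : mixedEmbedding.mixedSpace K) := hx
  have hdist : ∀ w : InfinitePlace K, |w (x : K) - t w| ≤ ρ := by
    intro w
    have h1 : ‖ZSpan.fract b τ‖ ≤ ρ := ZSpan.norm_fract_le b τ
    rw [ZSpan.fract_apply, ← hx'] at h1
    have h2 : mixedEmbedding.normAtPlace w (τ - mixedEmbedding K (x : K)) ≤ ρ := by
      refine le_trans ?_ h1
      rw [mixedEmbedding.norm_eq_sup'_normAtPlace]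
      exact Finset.le_sup' (fun w => mixedEmbedding.normAtPlace w
        (τ - mixedEmbedding K (x : K))) (Finset.mem_univ w)
    have h3 : mixedEmbedding.normAtPlace w τ = t w := by
      rw [hτ]
      exact mixedEmbedding.normAtPlace_mixedSpaceOfRealSpace (by have := ht1 w; linarith)
    have h4 := mixedEmbedding.normAtPlace_apply w (x : K)
    have h5 := mixedEmbedding.normAtPlace_add_le w (τ - mixedEmbedding K (x : K))
      (mixedEmbedding K (x : K))
    have h6 := mixedEmbedding.normAtPlace_add_le w (-(τ - mixedEmbedding K (x : K))) τ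
    rw [mixedEmbedding.normAtPlace_neg] at h6
    rw [sub_add_cancel] at h5
    have e : -(τ - mixedEmbedding K (x : K)) + τ = mixedEmbedding K (x : K) := by abel
    rw [e] at h6
    rw [h3, h4] at h5 h6
    rw [abs_le]
    constructor <;> linarith
  have hpos : ∀ w : InfinitePlace K, 0 < w (x : K) := by
    intro w
    have h1 := (abs_le.mp (hdist w)).1
    have h2 := ht1 w
    linarith
  have hx0 : (x : K) ≠ 0 := by
    obtain ⟨w⟩ : Nonempty (InfinitePlace K) := inferInstance
    exact InfinitePlace.pos_iff.mp (hpos w)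
  have hlog : ∀ w : InfinitePlace K, |Real.log (w (x : K)) - (Real.log R + s w)| ≤ 1 := by
    intro w
    have h1 := abs_le.mp (hdist w)
    have h2 := ht1 w
    have htw : 0 < t w := by linarith
    have h3 : Real.log (t w) = Real.log R + s w := by
      simp only [ht]
      rw [Real.log_mul hR0.ne' (Real.exp_pos _).ne', Real.log_exp]
    rw [← h3]
    have hl2 : Real.log 2 ≤ 1 := by
      have := Real.log_two_lt_d9
      linarith
    have h4 : Real.log (w (x : K)) ≤ Real.log (2 * t w) :=
      Real.log_le_log (hpos w) (by linarith)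
    have h5 : Real.log (t w) ≤ Real.log (2 * w (x : K)) := Real.log_le_log htw (by linarith)
    rw [Real.log_mul (by norm_num) htw.ne'] at h4
    rw [Real.log_mul (by norm_num) (hpos w).ne'] at h5
    rw [abs_le]
    constructor <;> linarith
  refine ⟨x, by exact_mod_cast hx0, fun w => ?_⟩
  have hn0 : (0 : ℝ) < ((Module.finrank ℚ K : ℕ) : ℝ) := by
    exact_mod_cast (Module.finrank_pos (R := ℚ) (M := K))
  have h3 : (∑ w : InfinitePlace K, (mult w : ℝ)) = Module.finrank ℚ K := by
    have := InfinitePlace.sum_mult_eq (K := K)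
    exact_mod_cast this
  have hN : |Real.log |((Algebra.norm ℚ (x : K) : ℚ) : ℝ)| / Module.finrank ℚ K -
      Real.log R| ≤ 1 := by
    rw [log_norm hx0]
    have h4 : (∑ w : InfinitePlace K, (mult w : ℝ) * Real.log (w (x : K))) /
        Module.finrank ℚ K - Real.log R =
        (∑ w : InfinitePlace K, (mult w : ℝ) * (Real.log (w (x : K)) - (Real.log R + s w))) /
        Module.finrank ℚ K := by
      have h5 : ∑ w : InfinitePlace K, (mult w : ℝ) * (Real.log (w (x : K)) - (Real.log R + s w)) =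
          ∑ w : InfinitePlace K, (mult w : ℝ) * Real.log (w (x : K)) -
            (Module.finrank ℚ K * Real.log R + 0) := by
        rw [← hs, ← h3, Finset.sum_mul, ← Finset.sum_add_distrib, ← Finset.sum_sub_distrib]
        refine Finset.sum_congr rfl fun w _ => ?_
        ring
      rw [h5]
      field_simp
      ring
    rw [h4, abs_div, abs_of_pos hn0, div_le_one hn0, ← h3]
    refine (Finset.abs_sum_le_sum_abs _ _).trans (Finset.sum_le_sum fun w _ => ?_)
    rw [abs_mul, Nat.abs_cast]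
    have := hlog w
    have h0 : (0 : ℝ) ≤ mult w := Nat.cast_nonneg _
    nlinarith
  have h6 := abs_le.mp hN
  have h7 := abs_le.mp (hlog w)
  unfold Lw
  rw [abs_le]
  constructor <;> linarith

/-- a class killed by `l` contains an ideal whose `l`-th power has a balanced generator -/
theorem exists_rep {l : ℕ} (hl : 1 ≤ l) (c : ClassGroup (𝓞 K)) (hc : c ^ l = 1) :
    ∃ (A : (Ideal (𝓞 K))⁰) (γ : 𝓞 K), ClassGroup.mk0 A = c ∧
      (A : Ideal (𝓞 K)) ^ l = Ideal.span {γ} ∧ γ ≠ 0 ∧
      ∀ w : InfinitePlace K, |Lw w (γ : K)| ≤ 2 * l := by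
  obtain ⟨I, rfl⟩ := ClassGroup.mk0_surjective c
  rw [← map_pow] at hc
  have hIl : ((I : Ideal (𝓞 K)) ^ l) ∈ nonZeroDivisors (Ideal (𝓞 K)) := pow_mem I.2 l
  have h1 : ClassGroup.mk0 (⟨(I : Ideal (𝓞 K)) ^ l, hIl⟩ : nonZeroDivisors (Ideal (𝓞 K))) = 1 := by
    rw [← hc]
    rfl
  rw [ClassGroup.mk0_eq_one_iff] at h1
  obtain ⟨g, hg⟩ := h1.principal
  have hg' : (I : Ideal (𝓞 K)) ^ l = Ideal.span {g} := hg
  have hg0 : g ≠ 0 := by
    rintro rfl
    rw [Ideal.span_singleton_eq_bot.mpr rfl] at hg'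
    exact nonZeroDivisors.ne_zero hIl hg'
  have hgK : (g : K) ≠ 0 := by exact_mod_cast hg0
  have hlr : (1 : ℝ) ≤ l := by exact_mod_cast hl
  obtain ⟨x, hx0, hx⟩ := approx (K := K) (fun w => -(Lw w (g : K)) / l) (by
    have := sum_Lw hgK
    have h2 : ∑ w : InfinitePlace K, (mult w : ℝ) * (-(Lw w (g : K)) / l) =
        -(∑ w : InfinitePlace K, (mult w : ℝ) * Lw w (g : K)) / l := by
      rw [← Finset.sum_neg_distrib, Finset.sum_div]
      refine Finset.sum_congr rfl fun w _ => ?_
      ring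
    rw [h2, this]
    simp)
  have hxK : (x : K) ≠ 0 := by exact_mod_cast hx0
  have hspan : (Ideal.span {x} : Ideal (𝓞 K)) ∈ nonZeroDivisors (Ideal (𝓞 K)) := by
    refine mem_nonZeroDivisors_of_ne_zero ?_
    rw [Ne, Ideal.zero_eq_bot, Ideal.span_singleton_eq_bot]
    exact hx0
  refine ⟨⟨Ideal.span {x}, hspan⟩ * I, x ^ l * g, ?_, ?_, ?_, ?_⟩
  · rw [map_mul]
    have : ClassGroup.mk0 (⟨Ideal.span {x}, hspan⟩ : nonZeroDivisors (Ideal (𝓞 K))) = 1 := by
      rw [ClassGroup.mk0_eq_one_iff]
      exact ⟨⟨x, rfl⟩⟩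
    rw [this, one_mul]
  · change (Ideal.span {x} * (I : Ideal (𝓞 K))) ^ l = _
    rw [mul_pow, hg', Ideal.span_singleton_pow, Ideal.span_singleton_mul_span_singleton]
  · exact mul_ne_zero (pow_ne_zero _ hx0) hg0
  · intro w
    have h3 : Lw w ((x ^ l * g : 𝓞 K) : K) = l * (Lw w (x : K) - (-(Lw w (g : K)) / l)) := by
      push_cast
      rw [Lw_mul w (pow_ne_zero _ hxK) hgK, Lw_pow]
      field_simp
      ring
    rw [h3, abs_mul, Nat.abs_cast, mul_comm]
    exact mul_le_mul_of_nonneg_right (hx w) (by linarith)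

end Pool.Agent.TH847.LG
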