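import Mathlib

/-! The discriminant and the conjugates of a generator. -/

set_option autoImplicit false

namespace Pool.Agent.TH847.LG

open NumberField Finset IntermediateField
open scoped Classical nonZeroDivisors

variable {K : Type} [Field K] [NumberField K]

theorem sum_card_Ioi (d : ℕ) : ∑ i : Fin d, 2 * (Finset.Ioi i).card = d * (d - 1) := by
  have h1 : ∀ i : Fin d, (Finset.Ioi i).card = d - 1 - i := fun i => Fin.card_Ioi i
  simp only [h1]
  rw [← Finset.mul_sum, Fin.sum_univ_eq_sum_range (fun i => d - 1 - i) d,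
    Finset.sum_range_reflect (fun i => i) d, mul_comm, Finset.sum_range_id_mul_two]

theorem disc_bound {n : ℕ} (hn : Module.finrank ℚ K = n) (z : 𝓞 K)
    (hz : ℚ⟮(z : K)⟯ = ⊤) {B : ℝ} (hw : ∀ w : InfinitePlace K, w (z : K) ≤ B) :
    |(discr K : ℝ)| ≤ (2 * B) ^ (n * (n - 1)) := by
  have hint : IsIntegral ℚ (z : K) := Algebra.IsIntegral.isIntegral _
  have htop : Algebra.adjoin ℚ {(z : K)} = ⊤ := by
    rw [← IntermediateField.adjoin_simple_toSubalgebra_of_isAlgebraic hint.isAlgebraic, hz]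
    rfl
  let pb : PowerBasis ℚ K := PowerBasis.ofAdjoinEqTop' hint htop
  have hgen : pb.gen = z := PowerBasis.ofAdjoinEqTop'_gen hint htop
  have hdim : pb.dim = n := by rw [← pb.finrank, hn]
  -- the integer matrix
  have hc : Fintype.card (Module.Free.ChooseBasisIndex ℤ (𝓞 K)) = pb.dim := by
    rw [← Module.finrank_eq_card_basis (RingOfIntegers.basis K), RingOfIntegers.rank, pb.finrank]
  let e : Module.Free.ChooseBasisIndex ℤ (𝓞 K) ≃ Fin pb.dim := Fintype.equivFinOfCardEq hc
  let b : Module.Basis (Fin pb.dim) ℚ K := (integralBasis K).reindex e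
  let M : Matrix (Fin pb.dim) (Fin pb.dim) ℤ := fun i j =>
    (RingOfIntegers.basis K).repr (z ^ (j : ℕ)) (e.symm i)
  have hM : b.toMatrix pb.basis = M.map (Int.castRingHom ℚ) := by
    ext i j
    rw [Module.Basis.toMatrix_apply, pb.coe_basis, hgen, Matrix.map_apply]
    change ((integralBasis K).reindex e).repr ((z : K) ^ (j : ℕ)) i = _
    rw [Module.Basis.repr_reindex_apply]
    have h1 := integralBasis_repr_apply K (z ^ (j : ℕ)) (e.symm i)
    rw [map_pow] at h1
    exact h1
  have h1 : Algebra.discr ℚ pb.basis = (M.det : ℚ) ^ 2 * (discr K : ℚ) := by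
    have h2 := Algebra.discr_of_matrix_vecMul (A := ℚ) (b : Fin pb.dim → K)
      (b.toMatrix pb.basis)
    rw [Module.Basis.toMatrix_map_vecMul] at h2
    rw [h2, hM]
    have h3 : (M.map (Int.castRingHom ℚ)).det = (M.det : ℚ) := by
      have := (RingHom.map_det (Int.castRingHom ℚ) M)
      rw [RingHom.mapMatrix_apply] at this
      rw [← this]
      rfl
    have h4 : Algebra.discr ℚ (b : Fin pb.dim → K) = (discr K : ℚ) := by
      rw [coe_discr]
      have := Algebra.discr_reindex ℚ (integralBasis K) e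
      rw [← this]
      congr 1
      exact Module.Basis.coe_reindex _ _
    rw [h3, h4]
  have hne : M.det ≠ 0 := by
    intro h0
    have h2 := Algebra.discr_not_zero_of_basis ℚ pb.basis
    rw [h1, h0] at h2
    simp at h2
  generalize M.det = m at h1 hne
  have h2 : |(discr K : ℝ)| ≤ ‖algebraMap ℚ ℂ (Algebra.discr ℚ pb.basis)‖ := by
    have h3 : ‖algebraMap ℚ ℂ (Algebra.discr ℚ pb.basis)‖ =
        |(m : ℝ)| ^ 2 * |(discr K : ℝ)| := by
      rw [h1]
      have e1 : algebraMap ℚ ℂ ((m : ℚ) ^ 2 * (discr K : ℚ)) =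
          (((m : ℝ) ^ 2 * (discr K : ℝ) : ℝ) : ℂ) := by
        rw [eq_ratCast]
        push_cast
        rfl
      rw [e1, Complex.norm_real, Real.norm_eq_abs, abs_mul, abs_pow]
    rw [h3]
    have h4 : 1 ≤ |(m : ℝ)| ^ 2 := by
      have : (1 : ℝ) ≤ |(m : ℝ)| := by exact_mod_cast Int.one_le_abs hne
      nlinarith
    have h5 := abs_nonneg (discr K : ℝ)
    nlinarith
  refine h2.trans ?_
  have hcard : Fintype.card (K →ₐ[ℚ] ℂ) = pb.dim := by
    rw [AlgHom.card, pb.finrank]
  let f : Fin pb.dim ≃ (K →ₐ[ℚ] ℂ) := (Fintype.equivFinOfCardEq hcard).symm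
  rw [Algebra.discr_powerBasis_eq_prod ℚ ℂ pb f, norm_prod]
  have hconj : ∀ i, ‖f i pb.gen‖ ≤ B := by
    intro i
    rw [hgen]
    have := hw (InfinitePlace.mk ((f i : K →ₐ[ℚ] ℂ) : K →+* ℂ))
    rw [InfinitePlace.apply] at this
    exact this
  calc ∏ i : Fin pb.dim, ‖∏ j ∈ Finset.Ioi i, (f j pb.gen - f i pb.gen) ^ 2‖
      ≤ ∏ i : Fin pb.dim, (2 * B) ^ (2 * (Finset.Ioi i).card) := by
        refine Finset.prod_le_prod (fun i _ => norm_nonneg _) fun i _ => ?_
        rw [norm_prod]
        calc ∏ j ∈ Finset.Ioi i, ‖(f j pb.gen - f i pb.gen) ^ 2‖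
            ≤ ∏ j ∈ Finset.Ioi i, (2 * B) ^ 2 := by
              refine Finset.prod_le_prod (fun j _ => norm_nonneg _) fun j _ => ?_
              rw [norm_pow]
              have h3 : ‖f j pb.gen - f i pb.gen‖ ≤ 2 * B := by
                refine (norm_sub_le _ _).trans ?_
                linarith [hconj i, hconj j]
              exact pow_le_pow_left₀ (norm_nonneg _) h3 2
          _ = (2 * B) ^ (2 * (Finset.Ioi i).card) := by
              rw [Finset.prod_const, ← pow_mul]
    _ = (2 * B) ^ (n * (n - 1)) := by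
        rw [Finset.prod_pow_eq_pow_sum, sum_card_Ioi, hdim]

/-- an integer whose norm has a prime with exponent coprime to the degree generates the field -/
theorem gen_top {n : ℕ} (hn : Module.finrank ℚ K = n) {l : ℕ} (hl : Nat.Coprime l n)
    {p q : ℕ} (hp : p.Prime) (hq : q.Prime) (hpq : p ≠ q) (z : 𝓞 K)
    (hz : (Algebra.norm ℤ z).natAbs = (q * p ^ (n - 1)) ^ l) : ℚ⟮(z : K)⟯ = ⊤ := by
  set d := Module.finrank ℚ⟮(z : K)⟯ K with hd
  have hdn : d ∣ n := by
    rw [← hn, ← Module.finrank_mul_finrank ℚ ℚ⟮(z : K)⟯ K]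
    exact dvd_mul_left _ _
  have h1 := Algebra.norm_eq_norm_adjoin ℚ (z : K)
  have hint : IsIntegral ℤ (AdjoinSimple.gen ℚ (z : K)) := by
    rw [← isIntegral_algebraMap_iff (algebraMap ℚ⟮(z : K)⟯ K).injective]
    exact RingOfIntegers.isIntegral_coe z
  obtain ⟨a, ha⟩ := IsIntegrallyClosed.isIntegral_iff.mp
    (Algebra.isIntegral_norm ℚ hint)
  have h1' : Algebra.norm ℚ (z : K) = (algebraMap ℤ ℚ a) ^ d := by
    rw [ha]
    convert h1
    exact Subsingleton.elim _ _
  rw [← Algebra.coe_norm_int] at h1'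
  have h2 : Algebra.norm ℤ z = a ^ d := by
    have : ((Algebra.norm ℤ z : ℤ) : ℚ) = ((a ^ d : ℤ) : ℚ) := by
      rw [h1']
      push_cast
      rfl
    exact_mod_cast this
  rw [h2, Int.natAbs_pow] at hz
  have h3 : (a.natAbs ^ d).factorization q = ((q * p ^ (n - 1)) ^ l).factorization q := by
    rw [hz]
  rw [Nat.factorization_pow, Nat.factorization_pow, Nat.factorization_mul hq.ne_zero
    (pow_ne_zero _ hp.ne_zero), Nat.factorization_pow] at h3
  simp only [Finsupp.smul_apply, Finsupp.add_apply, smul_eq_mul, hq.factorization_self] at h3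
  rw [hp.factorization, Finsupp.single_apply, if_neg hpq, mul_zero, add_zero, mul_one] at h3
  have h4 : d ∣ l := ⟨_, h3.symm⟩
  have h5 : d = 1 := Nat.eq_one_of_dvd_coprimes hl h4 hdn
  exact IntermediateField.finrank_eq_one_iff_eq_top.mp h5

end Pool.Agent.TH847.LG
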