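import Pool.Agent.TH847.LG.Eul

/-! The weighted count of ideals. -/

set_option autoImplicit false

namespace Pool.Agent.TH847.LG

open NumberField Finset Pool.Agent.TH847.LS
open scoped Classical

/-- the geometric constant -/
theorem geo : ∃ C : ℝ, 0 < C ∧ ∀ M : ℕ, ∑ k ∈ range M, ((k : ℝ) + 2) * (1 / √2) ^ k ≤ C := by
  have hr : ‖(1 / √2 : ℝ)‖ < 1 := by
    rw [Real.norm_eq_abs, abs_of_pos (by positivity), div_lt_one (by positivity)]
    exact Real.lt_sqrt_of_sq_lt (by norm_num)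
  have h1 := summable_pow_mul_geometric_of_norm_lt_one 1 hr
  have h2 := summable_geometric_of_norm_lt_one hr
  have h3 : Summable (fun k : ℕ => ((k : ℝ) + 2) * (1 / √2) ^ k) := by
    refine (h1.add (h2.mul_left 2)).congr fun k => ?_
    rw [pow_one]
    ring
  refine ⟨∑' k : ℕ, ((k : ℝ) + 2) * (1 / √2) ^ k + 1, ?_, fun M => ?_⟩
  · have : 0 ≤ ∑' k : ℕ, ((k : ℝ) + 2) * (1 / √2) ^ k := tsum_nonneg fun k => by positivity
    linarith
  · have := h3.sum_le_tsum (range M) fun k _ => by positivity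
    linarith

variable {K : Type} [Field K] [NumberField K]

theorem dyadic1 (N : ℕ) : ∑ J ∈ FI K N, √((N : ℝ) / Ideal.absNorm J) ≤
    √2 * ∑ k ∈ range (Nat.log 2 N + 1), (√2) ^ k * ((FI K (N / 2 ^ k)).card : ℝ) := by
  have h1 : ∀ J ∈ FI K N, √((N : ℝ) / Ideal.absNorm J) ≤
      √2 * ∑ k ∈ range (Nat.log 2 N + 1), if J ∈ FI K (N / 2 ^ k) then (√2) ^ k else 0 := by
    intro J hJ
    rw [mem_FI] at hJ
    have hJ0 := absNorm_pos hJ.2
    have hJr : (0 : ℝ) < Ideal.absNorm J := by exact_mod_cast hJ0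
    set m := N / Ideal.absNorm J with hm
    have hm0 : m ≠ 0 := by
      rw [hm, Nat.div_ne_zero_iff]
      exact ⟨hJ0.ne', hJ.1⟩
    set k0 := Nat.log 2 m with hk0
    have h2 : 2 ^ k0 ≤ m := Nat.pow_log_le_self 2 hm0
    have h3 : m < 2 ^ (k0 + 1) := Nat.lt_pow_succ_log_self (by norm_num) m
    have h4 : (N : ℝ) / Ideal.absNorm J < 2 ^ (k0 + 1) := by
      have h5 : N < (m + 1) * Ideal.absNorm J := by
        have := Nat.lt_div_mul_add (a := N) hJ0
        rw [← hm] at this
        linarith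
      have h6 : (N : ℝ) < ((m : ℝ) + 1) * Ideal.absNorm J := by exact_mod_cast h5
      rw [div_lt_iff₀ hJr]
      refine lt_of_lt_of_le h6 ?_
      refine mul_le_mul_of_nonneg_right ?_ hJr.le
      exact_mod_cast h3
    refine (sqrt_le_sum h4).trans ?_
    refine mul_le_mul_of_nonneg_left ?_ (by positivity)
    have h7 : k0 ∈ range (Nat.log 2 N + 1) := by
      rw [mem_range]
      have : k0 ≤ Nat.log 2 N := Nat.log_mono_right (Nat.div_le_self _ _)
      omega
    have h8 : J ∈ FI K (N / 2 ^ k0) := by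
      rw [mem_FI]
      refine ⟨?_, hJ.2⟩
      rw [Nat.le_div_iff_mul_le (by positivity), mul_comm, ← Nat.le_div_iff_mul_le hJ0]
      exact h2
    refine le_trans (le_of_eq ?_) (Finset.single_le_sum (f := fun k =>
      if J ∈ FI K (N / 2 ^ k) then (√2) ^ k else 0) (fun k _ => ?_) h7)
    · rw [if_pos h8]
    · split_ifs <;> positivity
  refine (Finset.sum_le_sum h1).trans ?_
  rw [← Finset.mul_sum]
  refine mul_le_mul_of_nonneg_left ?_ (by positivity)
  rw [Finset.sum_comm]
  refine Finset.sum_le_sum fun k _ => ?_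
  rw [← Finset.sum_filter, Finset.sum_const, nsmul_eq_mul, mul_comm]
  refine mul_le_mul_of_nonneg_left ?_ (by positivity)
  rw [Nat.cast_le]
  refine Finset.card_le_card fun J hJ => ?_
  rw [mem_filter] at hJ
  exact hJ.2

theorem dyadic : ∃ C : ℝ, 0 < C ∧ ∀ (K : Type) [Field K] [NumberField K] (n : ℕ),
    Module.finrank ℚ K = n → ∀ N : ℕ, 1 ≤ N →
    (∑ J ∈ FI K N, √((N : ℝ) / Ideal.absNorm J)) * (1 + Real.log N) ≤
      C * ((2 + 6 * n) * Real.exp (3 * n)) * N * EE K n N := by
  obtain ⟨C0, hC0, hC⟩ := geo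
  refine ⟨√2 * C0, by positivity, ?_⟩
  intro K _ _ n hn N hN
  have hNr : (1 : ℝ) ≤ N := by exact_mod_cast hN
  have hlN : 0 ≤ Real.log N := Real.log_nonneg hNr
  have hE := EE_pos (K := K) n N
  set A : ℝ := (2 + 6 * n) * Real.exp (3 * n) with hA
  have hA0 : 0 < A := by positivity
  have key : ∀ k ∈ range (Nat.log 2 N + 1),
      (√2) ^ k * ((FI K (N / 2 ^ k)).card : ℝ) * (1 + Real.log N) ≤
        A * N * EE K n N * (((k : ℝ) + 2) * (1 / √2) ^ k) := by
    intro k hk
    rw [mem_range] at hk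
    set m := N / 2 ^ k with hm
    have hm0 : 1 ≤ m := by
      rw [hm, Nat.le_div_iff_mul_le (by positivity), one_mul]
      exact Nat.pow_le_of_le_log (by omega) (by omega)
    have hmr : (1 : ℝ) ≤ m := by exact_mod_cast hm0
    have h1 := card_FI_le hn m
    rw [← hA] at h1
    have h2 : EE K n m ≤ EE K n N := EE_mono (Nat.div_le_self _ _)
    have h3 : (m : ℝ) * 2 ^ k ≤ N := by
      have : m * 2 ^ k ≤ N := Nat.div_mul_le_self _ _
      exact_mod_cast this
    have h4 : (N : ℝ) ≤ m * 2 ^ (k + 1) := by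
      have h5 : N < (m + 1) * 2 ^ k := by
        have := Nat.lt_div_mul_add (a := N) (b := 2 ^ k) (by positivity)
        rw [← hm] at this
        linarith
      have h6 : (N : ℝ) < ((m : ℝ) + 1) * 2 ^ k := by exact_mod_cast h5
      have h7 : (0 : ℝ) < 2 ^ k := by positivity
      rw [pow_succ]
      nlinarith
    have h5 : 1 + Real.log N ≤ (1 + Real.log m) * ((k : ℝ) + 2) := by
      have h6 : Real.log N ≤ Real.log m + ((k : ℝ) + 1) * Real.log 2 := by
        have := Real.log_le_log (by linarith) h4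
        rw [Real.log_mul (by linarith) (by positivity), Real.log_pow] at this
        push_cast at this
        exact this
      have h7 : Real.log 2 ≤ 1 := by
        have := Real.log_two_lt_d9
        linarith
      have h8 : 0 ≤ Real.log m := Real.log_nonneg hmr
      have h9 : (0 : ℝ) ≤ k := by positivity
      nlinarith
    have h6 : ((FI K m).card : ℝ) * (1 + Real.log N) ≤
        A * ((N : ℝ) / 2 ^ k) * EE K n N * ((k : ℝ) + 2) := by
      calc ((FI K m).card : ℝ) * (1 + Real.log N)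
          ≤ ((FI K m).card : ℝ) * ((1 + Real.log m) * ((k : ℝ) + 2)) := by gcongr
        _ = (((FI K m).card : ℝ) * (1 + Real.log m)) * ((k : ℝ) + 2) := by ring
        _ ≤ (A * m * EE K n m) * ((k : ℝ) + 2) := by gcongr
        _ ≤ (A * ((N : ℝ) / 2 ^ k) * EE K n N) * ((k : ℝ) + 2) := by
            have : (m : ℝ) ≤ (N : ℝ) / 2 ^ k := by
              rw [le_div_iff₀ (by positivity)]; exact h3
            have hEm := EE_pos (K := K) n m
            gcongr
        _ = _ := by ring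
    have h7 : (√2) ^ k * ((N : ℝ) / 2 ^ k) = N * (1 / √2) ^ k := by
      have h8 : (2 : ℝ) ^ k = (√2) ^ k * (√2) ^ k := by
        rw [← mul_pow, Real.mul_self_sqrt (by norm_num)]
      rw [h8, one_div, inv_pow]
      field_simp
    calc (√2) ^ k * ((FI K m).card : ℝ) * (1 + Real.log N)
        = (√2) ^ k * (((FI K m).card : ℝ) * (1 + Real.log N)) := by ring
      _ ≤ (√2) ^ k * (A * ((N : ℝ) / 2 ^ k) * EE K n N * ((k : ℝ) + 2)) := by gcongr
      _ = A * EE K n N * ((k : ℝ) + 2) * ((√2) ^ k * ((N : ℝ) / 2 ^ k)) := by ring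
      _ = _ := by rw [h7]; ring
  calc (∑ J ∈ FI K N, √((N : ℝ) / Ideal.absNorm J)) * (1 + Real.log N)
      ≤ (√2 * ∑ k ∈ range (Nat.log 2 N + 1), (√2) ^ k * ((FI K (N / 2 ^ k)).card : ℝ)) *
          (1 + Real.log N) := by
        refine mul_le_mul_of_nonneg_right (dyadic1 N) (by linarith)
    _ = √2 * ∑ k ∈ range (Nat.log 2 N + 1),
          (√2) ^ k * ((FI K (N / 2 ^ k)).card : ℝ) * (1 + Real.log N) := by
        rw [mul_assoc, Finset.sum_mul]
    _ ≤ √2 * ∑ k ∈ range (Nat.log 2 N + 1),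
          A * N * EE K n N * (((k : ℝ) + 2) * (1 / √2) ^ k) := by
        refine mul_le_mul_of_nonneg_left (Finset.sum_le_sum key) (by positivity)
    _ = √2 * (A * N * EE K n N) *
          ∑ k ∈ range (Nat.log 2 N + 1), ((k : ℝ) + 2) * (1 / √2) ^ k := by
        rw [← Finset.mul_sum]; ring
    _ ≤ √2 * (A * N * EE K n N) * C0 := by
        refine mul_le_mul_of_nonneg_left (hC _) (by positivity)
    _ = _ := by ring

/-- powers of a logarithm against a square root -/
theorem log_pow_le {n : ℕ} (hn : 1 ≤ n) {t : ℝ} (ht : 1 ≤ t) :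
    (1 + Real.log t) ^ n ≤ (2 * n : ℝ) ^ n * √t := by
  have hnr : (1 : ℝ) ≤ n := by exact_mod_cast hn
  have ht0 : 0 < t := by linarith
  have h1 : 1 + Real.log t ≤ 2 * n * t ^ (1 / (2 * n) : ℝ) := by
    have h2 := Real.add_one_le_exp (Real.log t / (2 * n))
    have h3 : Real.exp (Real.log t / (2 * n)) = t ^ (1 / (2 * n) : ℝ) := by
      rw [Real.rpow_def_of_pos ht0]
      congr 1
      ring
    rw [h3] at h2
    have h4 : Real.log t = 2 * n * (Real.log t / (2 * n)) := by field_simp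
    nlinarith
  have h0 : 0 ≤ 1 + Real.log t := by
    have := Real.log_nonneg ht
    linarith
  calc (1 + Real.log t) ^ n ≤ (2 * n * t ^ (1 / (2 * n) : ℝ)) ^ n := by gcongr
    _ = (2 * n : ℝ) ^ n * (t ^ (1 / (2 * n) : ℝ)) ^ n := by rw [mul_pow]
    _ = (2 * n : ℝ) ^ n * √t := by
        rw [← Real.rpow_natCast (t ^ (1 / (2 * n) : ℝ)), ← Real.rpow_mul ht0.le,
          Real.sqrt_eq_rpow]
        congr 2
        field_simp

end Pool.Agent.TH847.LG
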