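import Pool.Agent.TH847.LG.Bal
import Pool.Agent.TH847.LG.Disc
import Pool.Agent.TH847.LG.Ram

/-! Small primes and torsion classes. -/

set_option autoImplicit false

namespace Pool.Agent.TH847.LG

open NumberField Finset Pool.Agent.TH847.LS NumberField.InfinitePlace IntermediateField
open scoped Classical nonZeroDivisors

/-- the bound for the discriminant -/
def Phi (n l p : ℕ) : ℕ := (2 * (150 * p) ^ l) ^ (n * (n - 1))

theorem Phi_mono {n l p q : ℕ} (h : p ≤ q) : Phi n l p ≤ Phi n l q := by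
  unfold Phi
  gcongr

variable {K : Type} [Field K] [NumberField K]

/-- a prime with norm `p` and its cofactor in degree `n` -/
theorem cofactorn {n : ℕ} (hn : Module.finrank ℚ K = n) {P : Ideal (𝓞 K)} {p : ℕ} (hp : p.Prime)
    (hP : Ideal.absNorm P = p) : ∃ P' J : (Ideal (𝓞 K))⁰, (P' : Ideal (𝓞 K)) = P ∧
      (P' : Ideal (𝓞 K)) * (J : Ideal (𝓞 K)) = Ideal.span {((p : ℕ) : 𝓞 K)} ∧
      Ideal.absNorm (P' : Ideal (𝓞 K)) = p ∧ Ideal.absNorm (J : Ideal (𝓞 K)) = p ^ (n - 1) := by
  have hn0 : 0 < n := by rw [← hn]; exact (Module.finrank_pos (R := ℚ) (M := K))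
  have h1 : P ∣ Ideal.span {((p : ℕ) : 𝓞 K)} := by
    rw [Ideal.dvd_iff_le, Ideal.span_le, Set.singleton_subset_iff, ← hP]
    exact Ideal.absNorm_mem P
  obtain ⟨J, hJ⟩ := h1
  have h3 : Ideal.absNorm P * Ideal.absNorm J = p ^ n := by
    rw [← map_mul, ← hJ, Ideal.absNorm_span_natCast, RingOfIntegers.rank, hn]
  obtain ⟨m, rfl⟩ : ∃ m, n = m + 1 := ⟨n - 1, by omega⟩
  rw [hP, pow_succ'] at h3
  have h4 := Nat.eq_of_mul_eq_mul_left hp.pos h3
  have hJ0 : J ≠ ⊥ := by
    rintro rfl
    rw [Ideal.absNorm_bot] at h4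
    exact (pow_pos hp.pos m).ne h4
  have hP0 : P ≠ ⊥ := by
    rintro rfl
    rw [Ideal.absNorm_bot] at hP
    exact hp.ne_zero hP.symm
  exact ⟨⟨P, mem_nonZeroDivisors_of_ne_zero hP0⟩, ⟨J, mem_nonZeroDivisors_of_ne_zero hJ0⟩,
    rfl, hJ.symm, hP, h4⟩

/-- the small-prime inequality -/
theorem ev {n : ℕ} (hn : Module.finrank ℚ K = n) {l : ℕ} (hl : 1 ≤ l) (N : ℕ)
    (hN : 2 ^ n * √|(discr K : ℝ)| < N) (G : Finset ℕ)
    (P J : {p // p ∈ G} → (Ideal (𝓞 K))⁰)
    (hG : ∀ p : {p // p ∈ G}, p.1.Prime ∧ Phi n l p.1 < (discr K).natAbs ∧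
      (P p : Ideal (𝓞 K)) * (J p : Ideal (𝓞 K)) = Ideal.span {((p.1 : ℕ) : 𝓞 K)} ∧
      Ideal.absNorm (P p : Ideal (𝓞 K)) = p.1 ∧
      Ideal.absNorm (J p : Ideal (𝓞 K)) = p.1 ^ (n - 1))
    (hgood : ∀ p q : {p // p ∈ G}, p ≠ q → ∀ z : 𝓞 K,
      Ideal.span {z} = (P q : Ideal (𝓞 K)) ^ l * (J p : Ideal (𝓞 K)) ^ l → ℚ⟮(z : K)⟯ = ⊤) :
    (G.card : ℝ) * (Nat.card {c : ClassGroup (𝓞 K) // c ^ l = 1} : ℝ) ≤
      ∑ J ∈ FI K N, (1 + Real.log ((N : ℝ) / Ideal.absNorm J)) ^ n := by
  have hn0 : 0 < n := by rw [← hn]; exact (Module.finrank_pos (R := ℚ) (M := K))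
  have hnr : (0 : ℝ) < n := by exact_mod_cast hn0
  have hlr : (1 : ℝ) ≤ l := by exact_mod_cast hl
  have hA : ∀ c : {c : ClassGroup (𝓞 K) // c ^ l = 1}, ∃ (A : (Ideal (𝓞 K))⁰)
      (γ : 𝓞 K), ClassGroup.mk0 A = c.1 ∧
      (A : Ideal (𝓞 K)) ^ l = Ideal.span {γ} ∧ γ ≠ 0 ∧
      ∀ w : InfinitePlace K, |Lw w (γ : K)| ≤ 2 * l :=
    fun c => exists_rep hl c.1 c.2
  choose A γ hA1 hA2 hA3 hA4 using hA
  have key := pack hn N hN ({p // p ∈ G} × {c : ClassGroup (𝓞 K) // c ^ l = 1})
    (fun i => A i.2 * P i.1) (by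
      rintro ⟨p, c⟩ ⟨q, c'⟩ a b ha hb hab hw
      simp only [Submonoid.coe_mul] at hab
      have haK : (a : K) ≠ 0 := by exact_mod_cast ha
      have hbK : (b : K) ≠ 0 := by exact_mod_cast hb
      have hγK : (γ c : K) ≠ 0 := by exact_mod_cast hA3 c
      have hγK' : (γ c' : K) ≠ 0 := by exact_mod_cast hA3 c'
      have hpK : ((p.1 : ℕ) : K) ≠ 0 := by exact_mod_cast (hG p).1.ne_zero
      have hpq : p = q := by
        by_contra hne
        -- the l-th power
        have e1 : Ideal.span {a ^ l * γ c'} * ((P q : Ideal (𝓞 K)) ^ l * (J p : Ideal (𝓞 K)) ^ l) =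
            Ideal.span {b ^ l * γ c * (p.1 : 𝓞 K) ^ l} := by
          have e2 := congrArg (fun I => I ^ l * (J p : Ideal (𝓞 K)) ^ l) hab
          simp only [mul_pow, Ideal.span_singleton_pow, hA2] at e2
          rw [← Ideal.span_singleton_mul_span_singleton, ← Ideal.span_singleton_mul_span_singleton,
            ← Ideal.span_singleton_mul_span_singleton, ← Ideal.span_singleton_pow (p.1 : 𝓞 K),
            ← (hG p).2.2.1, mul_pow]
          calc _ = Ideal.span {a ^ l} * (Ideal.span {γ c'} * (P q : Ideal (𝓞 K)) ^ l) *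
                (J p : Ideal (𝓞 K)) ^ l := by ring
            _ = Ideal.span {b ^ l} * (Ideal.span {γ c} * (P p : Ideal (𝓞 K)) ^ l) *
                (J p : Ideal (𝓞 K)) ^ l := e2
            _ = _ := by ring
        have hden : a ^ l * γ c' ≠ 0 := mul_ne_zero (pow_ne_zero _ ha) (hA3 c')
        have hdvd : a ^ l * γ c' ∣ b ^ l * γ c * (p.1 : 𝓞 K) ^ l := by
          rw [← Ideal.span_singleton_le_span_singleton, ← e1]
          exact Ideal.mul_le_left
        obtain ⟨z, hz⟩ := hdvd
        have hzspan : Ideal.span {z} = (P q : Ideal (𝓞 K)) ^ l * (J p : Ideal (𝓞 K)) ^ l := by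
          rw [hz, ← Ideal.span_singleton_mul_span_singleton (a ^ l * γ c')] at e1
          have hne0 : Ideal.span {a ^ l * γ c'} ≠ (0 : Ideal (𝓞 K)) := by
            rw [Ne, Ideal.zero_eq_bot, Ideal.span_singleton_eq_bot]
            exact hden
          exact (mul_left_cancel₀ hne0 e1).symm
        have hz0 : z ≠ 0 := by
          rintro rfl
          rw [mul_zero] at hz
          have : (b ^ l * γ c * (p.1 : 𝓞 K) ^ l) ≠ 0 := by
            refine mul_ne_zero (mul_ne_zero (pow_ne_zero _ hb) (hA3 c)) (pow_ne_zero _ ?_)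
            exact_mod_cast (hG p).1.ne_zero
          exact this hz
        have hzK : (z : K) ≠ 0 := by exact_mod_cast hz0
        have htop := hgood p q hne z hzspan
        -- the norm of z
        have hnz : (Algebra.norm ℤ z).natAbs = (q.1 * p.1 ^ (n - 1)) ^ l := by
          rw [← Ideal.absNorm_span_singleton, hzspan, map_mul, map_pow, map_pow,
            (hG q).2.2.2.1, (hG p).2.2.2.2, mul_pow]
        have hnz' : |((Algebra.norm ℚ (z : K) : ℚ) : ℝ)| = (((q.1 * p.1 ^ (n - 1)) ^ l : ℕ) : ℝ) := by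
          rw [← Algebra.coe_norm_int, ← hnz, Nat.cast_natAbs]
          push_cast
          rfl
        set y := max p.1 q.1 with hy
        have hy0 : 0 < y := lt_of_lt_of_le (hG p).1.pos (le_max_left _ _)
        have hyr : (0 : ℝ) < y := by exact_mod_cast hy0
        have hnle : (q.1 * p.1 ^ (n - 1)) ^ l ≤ (y ^ l) ^ n := by
          have h1 : q.1 * p.1 ^ (n - 1) ≤ y ^ n := by
            calc q.1 * p.1 ^ (n - 1) ≤ y * y ^ (n - 1) := by
                  gcongr
                  · exact le_max_right _ _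
                  · exact le_max_left _ _
              _ = y ^ n := by
                  rw [← pow_succ']
                  congr 1
                  omega
          calc (q.1 * p.1 ^ (n - 1)) ^ l ≤ (y ^ n) ^ l := by gcongr
            _ = (y ^ l) ^ n := by rw [← pow_mul, ← pow_mul, mul_comm]
        -- the size of z at the places
        have hLz : ∀ w : InfinitePlace K, Lw w (z : K) ≤ 5 * l := by
          intro w
          have h1 : Lw w ((a ^ l * γ c' * z : 𝓞 K) : K) =
              Lw w ((b ^ l * γ c * (p.1 : 𝓞 K) ^ l : 𝓞 K) : K) := by rw [hz]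
          push_cast at h1
          rw [Lw_mul w (mul_ne_zero (pow_ne_zero _ haK) hγK') hzK,
            Lw_mul w (pow_ne_zero _ haK) hγK', Lw_mul w (mul_ne_zero (pow_ne_zero _ hbK) hγK)
              (pow_ne_zero _ hpK), Lw_mul w (pow_ne_zero _ hbK) hγK, Lw_pow, Lw_pow, Lw_pow,
            Lw_natCast, mul_zero, add_zero] at h1
          have h2 := abs_lt.mp (hw w)
          have h3 := abs_le.mp (hA4 c w)
          have h4 := abs_le.mp (hA4 c' w)
          have h5 : (l : ℝ) * (Lw w (b : K) - Lw w (a : K)) ≤ l * 1 :=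
            mul_le_mul_of_nonneg_left (by linarith) (by linarith)
          nlinarith
        have hwz : ∀ w : InfinitePlace K, w (z : K) ≤ (150 * y : ℝ) ^ l := by
          intro w
          have h1 := hLz w
          unfold Lw at h1
          rw [hnz', hn] at h1
          have hpos : (0 : ℝ) < (((q.1 * p.1 ^ (n - 1)) ^ l : ℕ) : ℝ) := by
            have := mul_pos (hG q).1.pos (pow_pos (hG p).1.pos (n - 1))
            exact_mod_cast pow_pos this l
          have h2 : Real.log (((q.1 * p.1 ^ (n - 1)) ^ l : ℕ) : ℝ) ≤ n * (l * Real.log y) := by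
            have : (((q.1 * p.1 ^ (n - 1)) ^ l : ℕ) : ℝ) ≤ ((y : ℝ) ^ l) ^ n := by
              exact_mod_cast hnle
            have h3 := Real.log_le_log hpos this
            rw [Real.log_pow, Real.log_pow] at h3
            exact h3
          have h3 : Real.log (((q.1 * p.1 ^ (n - 1)) ^ l : ℕ) : ℝ) / n ≤ l * Real.log y := by
            rw [div_le_iff₀ hnr]
            linarith
          have h4 : Real.log (w (z : K)) ≤ Real.log ((150 * y : ℝ) ^ l) := by
            rw [Real.log_pow, Real.log_mul (by norm_num) hyr.ne']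
            have h5 : (5 : ℝ) ≤ Real.log 150 := by
              rw [Real.le_log_iff_exp_le (by norm_num)]
              have h6 : Real.exp 1 < 2.7182818286 := Real.exp_one_lt_d9
              have h7 : Real.exp 5 = Real.exp 1 ^ 5 := by
                rw [← Real.exp_nat_mul]; norm_num
              rw [h7]
              have h8 : Real.exp 1 ^ 5 ≤ (2.7182818286 : ℝ) ^ 5 := by
                gcongr
              refine h8.trans ?_
              norm_num
            nlinarith
          exact (Real.log_le_log_iff (w_pos w hzK) (by positivity)).mp h4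
        have hD := disc_bound hn z htop hwz
        have h1 : |(discr K : ℝ)| = ((discr K).natAbs : ℝ) := by
          rw [Nat.cast_natAbs]
          push_cast
          rfl
        rw [h1] at hD
        have h2 : ((discr K).natAbs : ℝ) ≤ (Phi n l y : ℝ) := by
          refine hD.trans (le_of_eq ?_)
          unfold Phi
          push_cast
          rfl
        have h3 : (discr K).natAbs ≤ Phi n l y := by exact_mod_cast h2
        have h4 : Phi n l y < (discr K).natAbs := by
          rcases max_choice p.1 q.1 with h | h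
          · rw [hy, h]; exact (hG p).2.1
          · rw [hy, h]; exact (hG q).2.1
        omega
      subst hpq
      have hc : c = c' := by
        have hP0 : (P p : Ideal (𝓞 K)) ≠ 0 := nonZeroDivisors.coe_ne_zero _
        have e1 : Ideal.span {a} * (A c' : Ideal (𝓞 K)) =
            Ideal.span {b} * (A c : Ideal (𝓞 K)) := by
          rw [← mul_assoc, ← mul_assoc] at hab
          exact mul_right_cancel₀ hP0 hab
        have e2 : ClassGroup.mk0 (A c') = ClassGroup.mk0 (A c) := by
          rw [ClassGroup.mk0_eq_mk0_iff]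
          exact ⟨a, b, ha, hb, e1⟩
        rw [hA1, hA1] at e2
        exact Subtype.ext e2.symm
      rw [hc])
  rw [Fintype.card_prod, Fintype.card_coe] at key
  rw [Nat.card_eq_fintype_card]
  push_cast at key
  exact key

/-- the class number -/
theorem class_le_n {n : ℕ} (hn : Module.finrank ℚ K = n) (N : ℕ)
    (hN : 2 ^ n * √|(discr K : ℝ)| < N) :
    (Nat.card (ClassGroup (𝓞 K)) : ℝ) ≤
      ∑ J ∈ FI K N, (1 + Real.log ((N : ℝ) / Ideal.absNorm J)) ^ n := by
  choose A hA using ClassGroup.mk0_surjective (R := 𝓞 K)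
  have key := pack hn N hN (ClassGroup (𝓞 K)) A (by
    intro c c' a b ha hb hab _
    have e2 : ClassGroup.mk0 (A c') = ClassGroup.mk0 (A c) := by
      rw [ClassGroup.mk0_eq_mk0_iff]
      exact ⟨a, b, ha, hb, hab⟩
    rw [hA, hA] at e2
    exact e2.symm)
  rw [Nat.card_eq_fintype_card]
  exact key

/-- the discriminant detects repeated factors -/
theorem dvd_discr_of_dvd {Q R : Ideal (𝓞 K)} {q : ℕ} (hq : q.Prime)
    (hQ : Ideal.absNorm Q = q) (hQR : Q * R = Ideal.span {((q : ℕ) : 𝓞 K)}) (h : Q ∣ R) :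
    q ∣ (discr K).natAbs := by
  have hmax : (Ideal.span {(q : ℤ)}).IsMaximal :=
    PrincipalIdealRing.isMaximal_of_irreducible (Nat.prime_iff_prime_int.mp hq).irreducible
  have h1 : Q ^ 2 ∣ (Ideal.span {(q : ℤ)}).map (algebraMap ℤ (𝓞 K)) := by
    rw [Ideal.map_span, Set.image_singleton]
    have : algebraMap ℤ (𝓞 K) (q : ℤ) = ((q : ℕ) : 𝓞 K) := by simp
    rw [this, ← hQR, sq]
    exact mul_dvd_mul_left _ h
  have hne : Ideal.span {(q : ℤ)} ≠ ⊥ := by
    rw [Ne, Ideal.span_singleton_eq_bot]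
    exact_mod_cast hq.ne_zero
  have h2 := pow_sub_one_dvd_differentIdeal ℤ Q 2 hne h1
  rw [show 2 - 1 = 1 by norm_num, pow_one] at h2
  have h3 := Ideal.absNorm_dvd_absNorm_of_le (Ideal.le_of_dvd h2)
  rw [hQ, absNorm_differentIdeal K] at h3
  exact h3

end Pool.Agent.TH847.LG
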