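import Pool.Agent.TH847.LS.Eul

/-! Counting ideals in a number field of degree `n`. -/

set_option autoImplicit false

namespace Pool.Agent.TH847.LG

open NumberField Finset Pool.Agent.TH847.LS
open scoped Classical

variable {K : Type} [Field K] [NumberField K]

/-- at most `n` prime ideals lie over a rational prime -/
theorem card_fiber {n : ℕ} (hn : Module.finrank ℚ K = n) (N p : ℕ) :
    ((PI K N).filter (fun P => (Ideal.absNorm P).minFac = p)).card ≤ n := by
  set s := (PI K N).filter (fun P => (Ideal.absNorm P).minFac = p) with hs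
  by_cases hne : s.Nonempty
  · obtain ⟨P0, hP0⟩ := hne
    rw [hs, mem_filter, mem_PI] at hP0
    obtain ⟨n0, hn0, hp, _, _⟩ := norm_pow hP0.1.1.2 hP0.1.2
    rw [hP0.2] at hp
    have hdvd : ∏ P ∈ s, P ∣ Ideal.span {((p : ℕ) : 𝓞 K)} := by
      refine Finset.prod_primes_dvd _ ?_ ?_
      · intro P hP
        rw [hs, mem_filter, mem_PI] at hP
        exact prime_of hP.1.1.2 hP.1.2
      · intro P hP
        rw [hs, mem_filter, mem_PI] at hP
        obtain ⟨n, hn, _, _, hmem⟩ := norm_pow hP.1.1.2 hP.1.2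
        rw [hP.2] at hmem
        rw [Ideal.dvd_iff_le, Ideal.span_le]
        simpa using hmem
    have hnorm : Ideal.absNorm (Ideal.span {((p : ℕ) : 𝓞 K)}) = p ^ n := by
      rw [Ideal.absNorm_span_natCast, RingOfIntegers.rank, hn]
    have h3 : Ideal.absNorm (∏ P ∈ s, P) ∣ p ^ n := by
      rw [← hnorm]
      exact Ideal.absNorm_dvd_absNorm_of_le (Ideal.le_of_dvd hdvd)
    have h4 : p ^ s.card ∣ Ideal.absNorm (∏ P ∈ s, P) := by
      rw [map_prod, ← Finset.prod_const]
      refine Finset.prod_dvd_prod_of_dvd _ _ fun P hP => ?_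
      rw [hs, mem_filter, mem_PI] at hP
      obtain ⟨n, hn, _, he, _⟩ := norm_pow hP.1.1.2 hP.1.2
      rw [he, hP.2]
      exact dvd_pow_self _ hn.ne'
    exact (Nat.pow_dvd_pow_iff_le_right hp.one_lt).mp (h4.trans h3)
  · rw [Finset.not_nonempty_iff_eq_empty] at hne
    rw [hne]
    simp

theorem sum_fiber {n : ℕ} (hn : Module.finrank ℚ K = n) (N : ℕ) (f : Ideal (𝓞 K) → ℝ)
    (g : ℕ → ℝ) (T : Finset ℕ) (hg : ∀ p ∈ T, 0 ≤ g p)
    (hf : ∀ P ∈ PI K N, (Ideal.absNorm P).minFac ∈ T ∧ f P ≤ g (Ideal.absNorm P).minFac) :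
    ∑ P ∈ PI K N, f P ≤ n * ∑ p ∈ T, g p := by
  rw [← Finset.sum_fiberwise_of_maps_to (t := T) (g := fun P => (Ideal.absNorm P).minFac)
    (fun P hP => (hf P hP).1), Finset.mul_sum]
  refine Finset.sum_le_sum fun p hp => ?_
  calc ∑ P ∈ (PI K N).filter (fun P => (Ideal.absNorm P).minFac = p), f P
      ≤ ∑ P ∈ (PI K N).filter (fun P => (Ideal.absNorm P).minFac = p), g p := by
        refine Finset.sum_le_sum fun P hP => ?_
        rw [mem_filter] at hP
        rw [← hP.2]
        exact (hf P hP.1).2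
    _ = ((PI K N).filter (fun P => (Ideal.absNorm P).minFac = p)).card * g p := by
        rw [Finset.sum_const, nsmul_eq_mul]
    _ ≤ n * g p := by
        refine mul_le_mul_of_nonneg_right ?_ (hg p hp)
        exact_mod_cast card_fiber hn N p

theorem psiK_le {n : ℕ} (hn : Module.finrank ℚ K = n) (m : ℕ) : psiK K m ≤ 6 * n * m := by
  have h1 : psiK K m ≤ n * ∑ p ∈ Nat.primesLE m, (Nat.log p m : ℝ) * Real.log p := by
    refine sum_fiber hn m _ (fun p => (Nat.log p m : ℝ) * Real.log p) _ ?_ ?_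
    · intro p _
      exact mul_nonneg (Nat.cast_nonneg _) (Real.log_natCast_nonneg _)
    · intro P hP
      rw [mem_PI] at hP
      obtain ⟨n, hn, hp, he, _⟩ := norm_pow hP.1.2 hP.2
      set p := (Ideal.absNorm P).minFac with hpdef
      have hm0 : m ≠ 0 := by
        have := absNorm_pos hP.1.2
        omega
      constructor
      · rw [Nat.mem_primesLE]
        refine ⟨le_trans ?_ hP.1.1, hp⟩
        conv_rhs => rw [he]
        exact Nat.le_self_pow hn.ne' _
      · have h3 : n * Nat.log (Ideal.absNorm P) m ≤ Nat.log p m := by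
          refine Nat.le_log_of_pow_le hp.one_lt ?_
          rw [pow_mul, ← he]
          exact Nat.pow_log_le_self _ hm0
        have h4 : Real.log (Ideal.absNorm P) = n * Real.log p := by
          conv_lhs => rw [he]
          rw [Nat.cast_pow, Real.log_pow]
        rw [h4, ← mul_assoc]
        refine mul_le_mul_of_nonneg_right ?_ (Real.log_natCast_nonneg _)
        rw [mul_comm]
        exact_mod_cast h3
  have h3 := Chebyshev.psi_eq_sum_mul_log_prime m
  have h4 := Chebyshev.psi_le_const_mul_self (x := (m : ℝ)) (by positivity)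
  rw [← h3] at h1
  have h5 : Real.log 4 ≤ 1.4 := by
    have : Real.log 4 = 2 * Real.log 2 := by
      rw [show (4 : ℝ) = 2 ^ 2 by norm_num, Real.log_pow]; norm_num
    have := Real.log_two_lt_d9
    linarith
  have h6 : (0 : ℝ) ≤ m := by positivity
  have h7 : (0 : ℝ) ≤ n := by positivity
  calc psiK K m ≤ n * Chebyshev.psi m := h1
    _ ≤ n * (6 * m) := by
        refine mul_le_mul_of_nonneg_left ?_ h7
        nlinarith
    _ = 6 * n * m := by ring

/-- the exponential of the sum over small primes -/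
noncomputable def EE (K : Type) [Field K] [NumberField K] (n N : ℕ) : ℝ :=
  Real.exp (n * ∑ p ∈ TT K N, 1 / (p : ℝ))

theorem EE_pos (n N : ℕ) : 0 < EE K n N := Real.exp_pos _

theorem EE_mono {n m N : ℕ} (h : m ≤ N) : EE K n m ≤ EE K n N := by
  unfold EE
  apply Real.exp_le_exp.mpr
  refine mul_le_mul_of_nonneg_left ?_ (Nat.cast_nonneg _)
  refine Finset.sum_le_sum_of_subset_of_nonneg ?_ fun _ _ _ => by positivity
  intro p hp
  rw [mem_TT] at hp ⊢
  exact ⟨⟨hp.1.1.trans h, hp.1.2⟩, hp.2⟩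

theorem SK_le {n : ℕ} (hn : Module.finrank ℚ K = n) (N : ℕ) :
    SK K N ≤ Real.exp (3 * n) * EE K n N := by
  refine (SK_le_prod N).trans ?_
  rw [EE, ← Real.exp_add]
  refine Real.exp_le_exp.mpr ?_
  set T := (Finset.Icc 1 N).filter Nat.Prime with hT
  have h3 : ∑ P ∈ PI K N, (1 / (Ideal.absNorm P : ℝ) + 2 / (Ideal.absNorm P : ℝ) ^ 2) ≤
      (n : ℝ) * ∑ p ∈ T, ((if p ∈ TT K N then 1 / (p : ℝ) else 0) + 3 * (1 / (p : ℝ) ^ 2)) := by
    refine sum_fiber hn N _ (fun p => (if p ∈ TT K N then 1 / (p : ℝ) else 0) +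
      3 * (1 / (p : ℝ) ^ 2)) _ ?_ ?_
    · intro p _
      split_ifs <;> positivity
    · intro P hP
      rw [mem_PI] at hP
      obtain ⟨n, hn, hp, he, _⟩ := norm_pow hP.1.2 hP.2
      set p := (Ideal.absNorm P).minFac with hpdef
      have hpN : p ≤ N := le_trans (by conv_rhs => rw [he]
                                       exact Nat.le_self_pow hn.ne' _) hP.1.1
      have hp2 : (2 : ℝ) ≤ p := by exact_mod_cast hp.two_le
      have hle : (p : ℝ) ≤ Ideal.absNorm P := by
        conv_rhs => rw [he]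
        exact_mod_cast Nat.le_self_pow hn.ne' _
      constructor
      · rw [hT, mem_filter, mem_Icc]
        exact ⟨⟨hp.one_lt.le, hpN⟩, hp⟩
      · have h4 : 2 / (Ideal.absNorm P : ℝ) ^ 2 ≤ 2 * (1 / (p : ℝ) ^ 2) := by
          rw [mul_one_div]
          gcongr
        rcases Nat.lt_or_ge 1 n with h1 | h1
        · have h5 : 1 / (Ideal.absNorm P : ℝ) ≤ 1 / (p : ℝ) ^ 2 := by
            have : (p : ℝ) ^ 2 ≤ Ideal.absNorm P := by
              conv_rhs => rw [he]
              exact_mod_cast Nat.pow_le_pow_right hp.pos h1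
            gcongr
          have h6 : (0 : ℝ) ≤ if p ∈ TT K N then 1 / (p : ℝ) else 0 := by
            split_ifs <;> positivity
          linarith
        · have hn1 : n = 1 := by omega
          rw [hn1, pow_one] at he
          have hmem : p ∈ TT K N := by
            rw [mem_TT]
            exact ⟨⟨hpN, hp⟩, P, he⟩
          rw [if_pos hmem]
          have h5 : 1 / (Ideal.absNorm P : ℝ) ≤ 1 / (p : ℝ) := by gcongr
          have h6 : (0 : ℝ) < 1 / (p : ℝ) ^ 2 := by positivity
          linarith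
  refine h3.trans ?_
  rw [Finset.sum_add_distrib, ← Finset.sum_filter, ← Finset.mul_sum]
  have h4 : ∑ p ∈ T, 1 / (p : ℝ) ^ 2 ≤ 1 := sum_inv_sq T fun p hp => by
    rw [hT, mem_filter] at hp
    exact hp.2.two_le
  have h5 : T.filter (fun p => p ∈ TT K N) = TT K N := by
    ext p
    rw [mem_filter, hT, mem_filter, mem_Icc, mem_TT]
    constructor
    · rintro ⟨_, h⟩
      exact h
    · intro h
      exact ⟨⟨⟨h.1.2.one_lt.le, h.1.1⟩, h.1.2⟩, h⟩
  rw [h5]
  have h6 : (0 : ℝ) ≤ n := by positivity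
  nlinarith

/-- the upper bound for the number of ideals -/
theorem card_FI_le {n : ℕ} (hn : Module.finrank ℚ K = n) (N : ℕ) :
    ((FI K N).card : ℝ) * (1 + Real.log N) ≤
      (2 + 6 * n) * Real.exp (3 * n) * N * EE K n N := by
  have h1 : ((FI K N).card : ℝ) * Real.log N =
      ∑ I ∈ FI K N, (Real.log N - Real.log (Ideal.absNorm I)) +
        ∑ I ∈ FI K N, Real.log (Ideal.absNorm I) := by
    rw [← Finset.sum_add_distrib]
    simp
  have h3 : ∑ I ∈ FI K N, (Real.log N - Real.log (Ideal.absNorm I)) ≤ N * SK K N := by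
    rw [SK, Finset.mul_sum]
    refine Finset.sum_le_sum fun I hI => ?_
    rw [mem_FI] at hI
    have h4 : (0 : ℝ) < Ideal.absNorm I := by exact_mod_cast absNorm_pos hI.2
    have h5 : (0 : ℝ) < N := by
      have : (Ideal.absNorm I : ℝ) ≤ N := by exact_mod_cast hI.1
      linarith
    rw [← Real.log_div h5.ne' h4.ne', mul_one_div]
    have := Real.add_one_le_exp (Real.log (N / Ideal.absNorm I))
    rw [Real.exp_log (by positivity)] at this
    linarith
  have h3' : ((FI K N).card : ℝ) ≤ N * SK K N := by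
    rw [SK, Finset.mul_sum, Finset.card_eq_sum_ones, Nat.cast_sum]
    refine Finset.sum_le_sum fun I hI => ?_
    rw [mem_FI] at hI
    have h4 : (0 : ℝ) < Ideal.absNorm I := by exact_mod_cast absNorm_pos hI.2
    rw [mul_one_div, le_div_iff₀ h4]
    have : (Ideal.absNorm I : ℝ) ≤ N := by exact_mod_cast hI.1
    push_cast
    linarith
  have h4 : ∑ I ∈ FI K N, Real.log (Ideal.absNorm I) ≤ 6 * n * (N * SK K N) := by
    refine (sum_log_absNorm N).trans ?_
    rw [SK, Finset.mul_sum, Finset.mul_sum]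
    refine Finset.sum_le_sum fun I hI => ?_
    refine (psiK_le hn _).trans ?_
    refine mul_le_mul_of_nonneg_left ?_ (by positivity)
    rw [mul_one_div]
    exact Nat.cast_div_le
  have h5 := SK_le hn N
  have h6 : (0 : ℝ) ≤ N := by positivity
  rw [mul_add, mul_one, h1]
  calc _ ≤ (2 + 6 * n) * (N * SK K N) := by linarith
    _ ≤ (2 + 6 * n) * (N * (Real.exp (3 * n) * EE K n N)) := by gcongr
    _ = _ := by ring

/-- the dyadic lower bound for a sum of powers of the square root of 2 -/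
theorem sqrt_le_sum {t : ℝ} {k0 : ℕ}
    (hk' : t < 2 ^ (k0 + 1)) : √t ≤ √2 * (√2) ^ k0 := by
  have h1 : √t ≤ √((2 : ℝ) ^ (k0 + 1)) := Real.sqrt_le_sqrt hk'.le
  have h2 : √((2 : ℝ) ^ (k0 + 1)) = √2 * (√2) ^ k0 := by
    rw [← pow_succ', show (2 : ℝ) ^ (k0 + 1) = ((√2) ^ (k0 + 1)) ^ 2 by
      rw [← pow_mul, mul_comm, pow_mul, Real.sq_sqrt (by norm_num)], Real.sqrt_sq (by positivity)]
  rw [← h2]
  exact h1

end Pool.Agent.TH847.LG
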