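import Pool.Agent.TH847.LG.EV
import Pool.Agent.TH847.LS.Mer

/-! The main bound in degree `n`. -/

set_option autoImplicit false

namespace Pool.Agent.TH847.LG

open NumberField Finset Pool.Agent.TH847.LS NumberField.InfinitePlace IntermediateField
open scoped Classical nonZeroDivisors

/-- the largest `y` with `Phi n l y < D`, or 2 -/
noncomputable def yn (n l D : ℕ) : ℕ := max 2 (Nat.findGreatest (fun m => Phi n l m < D) D)

theorem yn_two (n l D : ℕ) : 2 ≤ yn n l D := le_max_left _ _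

theorem le_Phi {n l : ℕ} (hn : 2 ≤ n) (hl : 1 ≤ l) (m : ℕ) : m ≤ Phi n l m := by
  unfold Phi
  have h1 : m ≤ 2 * (150 * m) ^ l := by
    calc m ≤ 150 * m := by omega
      _ ≤ (150 * m) ^ l := Nat.le_self_pow (by omega) _
      _ ≤ 2 * (150 * m) ^ l := by omega
  have h2 : n * (n - 1) ≠ 0 := by
    have : n - 1 ≠ 0 := by omega
    positivity
  exact h1.trans (Nat.le_self_pow h2 _)

theorem Phi_zero {n l : ℕ} (hn : 2 ≤ n) (hl : 1 ≤ l) : Phi n l 0 = 0 := by
  unfold Phi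
  have h2 : n * (n - 1) ≠ 0 := by
    have : n - 1 ≠ 0 := by omega
    positivity
  rw [mul_zero, zero_pow (by omega), mul_zero, zero_pow h2]

theorem of_le_yn {n l D p : ℕ} (hn : 2 ≤ n) (hl : 1 ≤ l) (hD : 1 < D) (hp : 2 < p)
    (h : p ≤ yn n l D) : Phi n l p < D := by
  unfold yn at h
  rcases le_max_iff.mp h with h1 | h1
  · omega
  · have h2 : Phi n l (Nat.findGreatest (fun m => Phi n l m < D) D) < D := by
      refine Nat.findGreatest_spec (P := fun m => Phi n l m < D) (m := 0) (Nat.zero_le _) ?_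
      rw [Phi_zero hn hl]
      omega
    exact lt_of_le_of_lt (Phi_mono h1) h2

theorem log_D_le_n {n l D : ℕ} (hn : 2 ≤ n) (hl : 1 ≤ l) (hD : 1 < D) :
    Real.log D ≤ 11 * l * n ^ 2 * Real.log (yn n l D) := by
  set y := yn n l D with hy
  have h2 : 2 ≤ y := yn_two n l D
  have h1 : D ≤ Phi n l (y + 1) := by
    by_contra hcon
    push Not at hcon
    have h3 : y + 1 ≤ D := by
      have := le_Phi hn hl (y + 1)
      omega
    have h4 : y + 1 ≤ Nat.findGreatest (fun m => Phi n l m < D) D :=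
      Nat.le_findGreatest h3 hcon
    have h5 : y + 1 ≤ y := h4.trans (le_max_right _ _)
    omega
  have h3 : Phi n l (y + 1) ≤ y ^ (11 * l * n ^ 2) := by
    unfold Phi
    have e1 : 150 * (y + 1) ≤ y ^ 10 := by
      have e2 : y + 1 ≤ y ^ 2 := by nlinarith
      have e3 : 2 ^ 8 ≤ y ^ 8 := Nat.pow_le_pow_left h2 8
      calc 150 * (y + 1) ≤ 2 ^ 8 * y ^ 2 := by
            have : 150 * (y + 1) ≤ 150 * y ^ 2 := by omega
            refine this.trans (Nat.mul_le_mul_right _ (by norm_num))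
        _ ≤ y ^ 8 * y ^ 2 := Nat.mul_le_mul_right _ e3
        _ = y ^ 10 := by rw [← pow_add]
    have e4 : 2 * (150 * (y + 1)) ^ l ≤ y ^ (11 * l) := by
      calc 2 * (150 * (y + 1)) ^ l ≤ y ^ l * (y ^ 10) ^ l := by
            refine Nat.mul_le_mul ?_ (Nat.pow_le_pow_left e1 l)
            exact h2.trans (Nat.le_self_pow (by omega) _)
        _ = y ^ (11 * l) := by rw [← pow_mul, ← pow_add]; congr 1; ring
    calc (2 * (150 * (y + 1)) ^ l) ^ (n * (n - 1)) ≤ (y ^ (11 * l)) ^ (n * (n - 1)) :=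
          Nat.pow_le_pow_left e4 _
      _ = y ^ (11 * l * (n * (n - 1))) := by rw [← pow_mul]
      _ ≤ y ^ (11 * l * n ^ 2) := by
          refine Nat.pow_le_pow_right (by omega) (Nat.mul_le_mul_left _ ?_)
          rw [sq]
          exact Nat.mul_le_mul_left _ (Nat.sub_le _ _)
  have h4 : (D : ℝ) ≤ (y : ℝ) ^ (11 * l * n ^ 2) := by exact_mod_cast h1.trans h3
  have hD0 : (0 : ℝ) < D := by exact_mod_cast (by omega : 0 < D)
  have h5 := Real.log_le_log hD0 h4
  rw [Real.log_pow] at h5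
  push_cast at h5
  exact h5

variable (K : Type) [Field K] [NumberField K]

/-- the small primes that are norms and do not lie in a given finite set -/
noncomputable def GG (n l D : ℕ) (Bd : Finset ℕ) : Finset ℕ :=
  (TT K D).filter (fun p => Phi n l p < D ∧ p ∉ Bd)

variable {K}

theorem EE_bound (n : ℕ) (hn : 2 ≤ n) : ∃ C : ℝ, 0 < C ∧ ∀ l : ℕ, 1 ≤ l →
    ∀ (K : Type) [Field K] [NumberField K] (D N : ℕ) (Bd : Finset ℕ), (∀ p ∈ Bd, p.Prime) →
    1 < D → 1 < N → Real.log N ≤ (n + 2) * Real.log D →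
    EE K n N ≤ C * l ^ n * (Real.log ((GG K n l D Bd).card + 2)) ^ n *
      (Real.log (Bd.card + 2)) ^ n := by
  obtain ⟨C, hC0, hC⟩ := Pool.Agent.Helper923.HMertens.mertens_ratio
  obtain ⟨C1, hC10, hC1⟩ := sum_inv_card
  have hl2 : (0 : ℝ) < Real.log 2 := Real.log_pos (by norm_num)
  have hnr : (2 : ℝ) ≤ n := by exact_mod_cast hn
  refine ⟨Real.exp (n * (C1 + C1 + 1 / 2 + C / Real.log 2)) * (((n : ℝ) + 2) * (11 * n ^ 2)) ^ n,
    by positivity, ?_⟩
  intro l hl
  have hlr : (1 : ℝ) ≤ l := by exact_mod_cast hl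
  set A : ℝ := ((n : ℝ) + 2) * (11 * l * n ^ 2) with hA
  have hAe : Real.exp (n * (C1 + C1 + 1 / 2 + C / Real.log 2)) *
      (((n : ℝ) + 2) * (11 * n ^ 2)) ^ n * l ^ n =
      Real.exp (n * (C1 + C1 + 1 / 2 + C / Real.log 2)) * A ^ n := by
    rw [hA, mul_assoc, ← mul_pow]
    congr 2
    ring
  rw [hAe]
  have hA1 : 1 ≤ A := by
    have e1 : (1 : ℝ) ≤ n ^ 2 := by nlinarith
    have e2 : (1 : ℝ) ≤ 11 * l * n ^ 2 := by nlinarith
    nlinarith
  intro K _ _ D N Bd hBd hD hN hND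
  set y := yn n l D with hy
  have hy2 : 2 ≤ y := yn_two n l D
  have hyr : (2 : ℝ) ≤ y := by exact_mod_cast hy2
  have hly : 0 < Real.log y := Real.log_pos (by linarith)
  set G := GG K n l D Bd with hG
  set k := G.card with hk
  have hsub : TT K N ⊆ ((G ∪ Bd) ∪ {2}) ∪ (Finset.Ioc y N).filter Nat.Prime := by
    intro p hp
    rw [mem_TT] at hp
    rw [mem_union, mem_union, mem_union, mem_filter, mem_Ioc, mem_singleton]
    by_cases h1 : p ≤ y
    · left
      by_cases h2 : p = 2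
      · exact Or.inr h2
      · left
        by_cases h3 : p ∈ Bd
        · exact Or.inr h3
        · left
          have h4 := of_le_yn hn hl hD (by have := hp.1.2.two_le; omega) h1
          rw [hG, GG, mem_filter, mem_TT]
          refine ⟨⟨⟨?_, hp.1.2⟩, hp.2⟩, h4, h3⟩
          have := le_Phi hn hl p
          omega
    · right
      exact ⟨⟨by omega, hp.1.1⟩, hp.1.2⟩
  have hnn : ∀ p : ℕ, 0 ≤ 1 / (p : ℝ) := fun p => by positivity
  have hunion : ∀ s t : Finset ℕ, ∑ p ∈ s ∪ t, 1 / (p : ℝ) ≤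
      ∑ p ∈ s, 1 / (p : ℝ) + ∑ p ∈ t, 1 / (p : ℝ) := by
    intro s t
    rw [← Finset.sum_union_inter]
    have : 0 ≤ ∑ p ∈ s ∩ t, 1 / (p : ℝ) := Finset.sum_nonneg fun p _ => hnn p
    linarith
  have hGp : ∀ p ∈ G, p.Prime := by
    intro p hp
    rw [hG, GG, mem_filter, mem_TT] at hp
    exact hp.1.1.2
  have h1 := hC1 G hGp
  have h2 := hC1 Bd hBd
  have h3 : ∑ p ∈ (Finset.Ioc y N).filter Nat.Prime, 1 / (p : ℝ) ≤
      Real.log A + C / Real.log 2 := by
    have hlA : 0 ≤ Real.log A := Real.log_nonneg hA1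
    have h0 : 0 ≤ C / Real.log 2 := by positivity
    rcases le_total N y with hNy | hNy
    · rw [Finset.Ioc_eq_empty (by omega)]
      simp only [Finset.filter_empty, Finset.sum_empty]
      linarith
    · have h7 := (abs_le.mp (hC y N hy2 hNy)).2
      have h8 : C / Real.log y ≤ C / Real.log 2 := by gcongr
      have h9 : Real.log (Real.log N / Real.log y) ≤ Real.log A := by
        have e0 : 0 < Real.log N := Real.log_pos (by exact_mod_cast hN)
        apply Real.log_le_log (by positivity)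
        rw [div_le_iff₀ hly]
        have h10 := log_D_le_n hn hl hD
        rw [← hy] at h10
        calc Real.log N ≤ (n + 2) * Real.log D := hND
          _ ≤ (n + 2) * (11 * l * n ^ 2 * Real.log y) := by gcongr
          _ = A * Real.log y := by rw [hA]; ring
      linarith
  have h4 : ∑ p ∈ TT K N, 1 / (p : ℝ) ≤ (Real.log (Real.log (k + 2)) + C1) +
      (Real.log (Real.log (Bd.card + 2)) + C1) + 1 / 2 + (Real.log A + C / Real.log 2) := by
    have e1 := Finset.sum_le_sum_of_subset_of_nonneg (f := fun p : ℕ => 1 / (p : ℝ)) hsub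
      fun p _ _ => hnn p
    have e2 := hunion ((G ∪ Bd) ∪ {2}) ((Finset.Ioc y N).filter Nat.Prime)
    have e3 := hunion (G ∪ Bd) {2}
    have e4 := hunion G Bd
    rw [Finset.sum_singleton] at e3
    push_cast at e3
    linarith
  have hk0 : (0 : ℝ) ≤ k := by positivity
  have hb0 : (0 : ℝ) ≤ Bd.card := by positivity
  have hlk : 0 < Real.log ((k : ℝ) + 2) := Real.log_pos (by linarith)
  have hlb : 0 < Real.log ((Bd.card : ℝ) + 2) := Real.log_pos (by linarith)
  have hexp : ∀ x : ℝ, 0 < x → Real.exp (n * Real.log x) = x ^ n := fun x hx => by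
    rw [Real.exp_nat_mul, Real.exp_log hx]
  unfold EE
  calc Real.exp (n * ∑ p ∈ TT K N, 1 / (p : ℝ))
      ≤ Real.exp (n * (C1 + C1 + 1 / 2 + C / Real.log 2) + (n * Real.log A +
          (n * Real.log (Real.log (k + 2)) + n * Real.log (Real.log (Bd.card + 2))))) := by
        apply Real.exp_le_exp.mpr
        have := mul_le_mul_of_nonneg_left h4 (show (0 : ℝ) ≤ n by linarith)
        linarith
    _ = _ := by
        rw [Real.exp_add, Real.exp_add, Real.exp_add, hexp _ hlk, hexp _ hlb,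
          hexp _ (by linarith)]
        ring

/-- the main bound -/
theorem main_n (n : ℕ) (hn2 : 2 ≤ n) : ∃ C : ℝ, 0 < C ∧ ∀ l : ℕ, 1 ≤ l →
    ∀ (K : Type) [Field K] [NumberField K], Module.finrank ℚ K = n → ∀ Bd : Finset ℕ,
    (∀ p ∈ Bd, p.Prime) →
    (∀ p ∉ Bd, ∀ q ∉ Bd, p.Prime → q.Prime → p ≠ q → ∀ Q R J : Ideal (𝓞 K),
      Ideal.absNorm Q = q → Q * R = Ideal.span {((q : ℕ) : 𝓞 K)} →
      Ideal.absNorm J = p ^ (n - 1) → ∀ z : 𝓞 K,
      Ideal.span {z} = Q ^ l * J ^ l → ℚ⟮(z : K)⟯ = ⊤) →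
    (Nat.card {c : ClassGroup (𝓞 K) // c ^ l = 1} : ℝ) *
      (((GG K n l (discr K).natAbs Bd).card : ℝ) + 1) * Real.log ((discr K).natAbs : ℝ) ≤
      C * l ^ n * (Real.log ((GG K n l (discr K).natAbs Bd).card + 2)) ^ n *
        (Real.log (Bd.card + 2)) ^ n * √((discr K).natAbs : ℝ) := by
  obtain ⟨C, hC0, hC⟩ := EE_bound n hn2
  obtain ⟨C1, hC10, hC1⟩ := dyadic
  refine ⟨2 * (2 * ((2 * n : ℝ) ^ n * (C1 * ((2 + 6 * n) * Real.exp (3 * n)) * 2 ^ (n + 1) * C))),
    by positivity, ?_⟩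
  intro l hl K _ _ hn Bd hBd hgood
  set D := (discr K).natAbs with hD
  have hDK : |(discr K : ℝ)| = (D : ℝ) := by
    rw [hD, Nat.cast_natAbs]
    push_cast
    rfl
  have hD2 : 2 < D := by
    have := abs_discr_gt_two (K := K) (by rw [hn]; omega)
    rw [Int.abs_eq_natAbs] at this
    exact_mod_cast this
  have hDr : (2 : ℝ) < D := by exact_mod_cast hD2
  have hs1 : 1 ≤ √(D : ℝ) := by
    rw [Real.one_le_sqrt]; linarith
  set X : ℝ := 2 ^ n * √(D : ℝ) with hX
  have hX1 : 1 ≤ X := by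
    have : (1 : ℝ) ≤ 2 ^ n := one_le_pow₀ (by norm_num)
    nlinarith
  set N := ⌊X⌋₊ + 1 with hN
  have hN1 : X < N := by
    rw [hN]; push_cast; exact Nat.lt_floor_add_one _
  have hN2 : (N : ℝ) ≤ 2 ^ (n + 1) * √(D : ℝ) := by
    rw [hN]; push_cast
    have := Nat.floor_le (show 0 ≤ X by linarith)
    rw [pow_succ]
    nlinarith
  have hN3 : 1 < N := by
    have : 1 ≤ ⌊X⌋₊ := Nat.le_floor (by exact_mod_cast hX1)
    omega
  have hlD : 0 < Real.log D := Real.log_pos (by linarith)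
  have hNr : (0 : ℝ) < N := by exact_mod_cast (by omega : 0 < N)
  have hlN : Real.log N ≤ (n + 2) * Real.log D := by
    have h1 := Real.log_le_log hNr hN2
    rw [Real.log_mul (by positivity) (by positivity), Real.log_pow,
      Real.log_sqrt (by linarith)] at h1
    have h2 : Real.log 2 ≤ Real.log D := Real.log_le_log (by norm_num) (by linarith)
    push_cast at h1
    have h3 : (0 : ℝ) ≤ n := by positivity
    nlinarith
  have hlN2 : Real.log D ≤ 2 * (1 + Real.log N) := by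
    have h1 : √(D : ℝ) ≤ N := by
      have : (1 : ℝ) ≤ 2 ^ n := one_le_pow₀ (by norm_num)
      nlinarith
    have h2 := Real.log_le_log (by positivity) h1
    rw [Real.log_sqrt (by linarith)] at h2
    linarith
  have hXN : 2 ^ n * √|(discr K : ℝ)| < N := by rw [hDK]; exact hN1
  set W := ∑ J ∈ FI K N, (1 + Real.log ((N : ℝ) / Ideal.absNorm J)) ^ n with hW
  set G := GG K n l D Bd with hG
  set k := G.card with hk
  set T := Nat.card {c : ClassGroup (𝓞 K) // c ^ l = 1} with hT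
  -- the weighted sum
  have hn1 : 1 ≤ n := by omega
  have hW1 : W ≤ (2 * n : ℝ) ^ n * ∑ J ∈ FI K N, √((N : ℝ) / Ideal.absNorm J) := by
    rw [hW, Finset.mul_sum]
    refine Finset.sum_le_sum fun J hJ => ?_
    rw [mem_FI] at hJ
    have h4 : (0 : ℝ) < Ideal.absNorm J := by exact_mod_cast absNorm_pos hJ.2
    refine log_pow_le hn1 ?_
    rw [le_div_iff₀ h4, one_mul]
    exact_mod_cast hJ.1
  have hE := hC l hl K D N Bd hBd (by omega) hN3 hlN
  rw [← hG, ← hk] at hE
  have hdy := hC1 K n hn N (by omega)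
  have hEpos := EE_pos (K := K) n N
  have hk0 : (0 : ℝ) ≤ k := by positivity
  have hb0 : (0 : ℝ) ≤ Bd.card := by positivity
  have hlk : 0 < Real.log ((k : ℝ) + 2) := Real.log_pos (by linarith)
  have hlb : 0 < Real.log ((Bd.card : ℝ) + 2) := Real.log_pos (by linarith)
  set L := (Real.log ((k : ℝ) + 2)) ^ n * (Real.log ((Bd.card : ℝ) + 2)) ^ n with hL
  have hL0 : 0 < L := by positivity
  have hln : (0 : ℝ) ≤ (l : ℝ) ^ n := by positivity
  have hlN0 : 0 ≤ Real.log N := Real.log_nonneg (by exact_mod_cast hN3.le)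
  have hW0 : 0 ≤ ∑ J ∈ FI K N, √((N : ℝ) / Ideal.absNorm J) :=
    Finset.sum_nonneg fun _ _ => Real.sqrt_nonneg _
  have hWb : W * Real.log D ≤
      2 * ((2 * n : ℝ) ^ n * (C1 * ((2 + 6 * n) * Real.exp (3 * n)) * 2 ^ (n + 1) * C)) *
        l ^ n * L * √(D : ℝ) := by
    calc W * Real.log D
        ≤ ((2 * n : ℝ) ^ n * ∑ J ∈ FI K N, √((N : ℝ) / Ideal.absNorm J)) *
            (2 * (1 + Real.log N)) := by gcongr
      _ = 2 * (2 * n : ℝ) ^ n * ((∑ J ∈ FI K N, √((N : ℝ) / Ideal.absNorm J)) *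
            (1 + Real.log N)) := by ring
      _ ≤ 2 * (2 * n : ℝ) ^ n * (C1 * ((2 + 6 * n) * Real.exp (3 * n)) * N * EE K n N) := by
          gcongr
      _ ≤ 2 * (2 * n : ℝ) ^ n * (C1 * ((2 + 6 * n) * Real.exp (3 * n)) *
            (2 ^ (n + 1) * √(D : ℝ)) * (C * l ^ n * (Real.log ((k : ℝ) + 2)) ^ n *
              (Real.log ((Bd.card : ℝ) + 2)) ^ n)) := by gcongr
      _ = _ := by rw [hL]; ring
  -- the two inequalities
  have hTh : T ≤ Nat.card (ClassGroup (𝓞 K)) :=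
    Nat.card_le_card_of_injective _ Subtype.val_injective
  have hT1 : (T : ℝ) ≤ W := by
    have h1 := class_le_n hn N hXN
    have h2 : (T : ℝ) ≤ Nat.card (ClassGroup (𝓞 K)) := by exact_mod_cast hTh
    linarith
  have hT2 : (k : ℝ) * T ≤ W := by
    have hex : ∀ p : {p // p ∈ G}, ∃ P' J : (Ideal (𝓞 K))⁰,
        (P' : Ideal (𝓞 K)) * (J : Ideal (𝓞 K)) = Ideal.span {((p.1 : ℕ) : 𝓞 K)} ∧
        Ideal.absNorm (P' : Ideal (𝓞 K)) = p.1 ∧
        Ideal.absNorm (J : Ideal (𝓞 K)) = p.1 ^ (n - 1) := by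
      rintro ⟨p, hp⟩
      rw [hG, GG, mem_filter, mem_TT] at hp
      obtain ⟨P, hP⟩ := hp.1.2
      obtain ⟨P', J, _, h1, h2, h3⟩ := cofactorn hn hp.1.1.2 hP
      exact ⟨P', J, h1, h2, h3⟩
    choose P J h1 h2 h3 using hex
    have hGm : ∀ p : {p // p ∈ G}, p.1.Prime ∧ Phi n l p.1 < D ∧ p.1 ∉ Bd := by
      rintro ⟨p, hp⟩
      rw [hG, GG, mem_filter, mem_TT] at hp
      exact ⟨hp.1.1.2, hp.2.1, hp.2.2⟩
    exact ev hn hl N hXN G P J (fun p => ⟨(hGm p).1, (hGm p).2.1, h1 p, h2 p, h3 p⟩)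
      (fun p q hne z hz => hgood p.1 (hGm p).2.2 q.1 (hGm q).2.2 (hGm p).1 (hGm q).1
        (fun h => hne (Subtype.ext h)) (P q) (J q) (J p) (h2 q) (h1 q) (h3 p) z hz)
  calc (T : ℝ) * ((k : ℝ) + 1) * Real.log D = (k * T + T) * Real.log D := by ring
    _ ≤ (W + W) * Real.log D := by gcongr
    _ = 2 * (W * Real.log D) := by ring
    _ ≤ 2 * (2 * ((2 * n : ℝ) ^ n * (C1 * ((2 + 6 * n) * Real.exp (3 * n)) * 2 ^ (n + 1) * C)) *
        l ^ n * L * √(D : ℝ)) := by gcongr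
    _ = _ := by rw [hL]; ring

end Pool.Agent.TH847.LG
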