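import Pool.Agent.TH847.LG.Dy

/-! A packing inequality for ideals, from Minkowski's theorem. -/

set_option autoImplicit false

namespace Pool.Agent.TH847.LG

open NumberField Finset Pool.Agent.TH847.LS NumberField.InfinitePlace
open scoped Classical nonZeroDivisors NNReal ENNReal

variable {K : Type} [Field K] [NumberField K]

/-- the logarithm of the absolute value at a place, normalised by the norm -/
noncomputable def Lw (w : InfinitePlace K) (z : K) : ℝ :=
  Real.log (w z) - (Real.log |((Algebra.norm ℚ z : ℚ) : ℝ)|) / Module.finrank ℚ K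

theorem norm_ne_zero' {z : K} (hz : z ≠ 0) : ((Algebra.norm ℚ z : ℚ) : ℝ) ≠ 0 := by
  rw [Ne, Rat.cast_eq_zero, Algebra.norm_eq_zero_iff]
  exact hz

omit [NumberField K] in
theorem w_pos (w : InfinitePlace K) {z : K} (hz : z ≠ 0) : 0 < w z := InfinitePlace.pos_iff.mpr hz

theorem log_norm {z : K} (hz : z ≠ 0) : Real.log |((Algebra.norm ℚ z : ℚ) : ℝ)| =
    ∑ w : InfinitePlace K, (mult w : ℝ) * Real.log (w z) := by
  have h := InfinitePlace.prod_eq_abs_norm z
  have h1 : |((Algebra.norm ℚ z : ℚ) : ℝ)| = ∏ w : InfinitePlace K, w z ^ mult w := by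
    rw [h]
    push_cast
    rfl
  rw [h1, Real.log_prod]
  · refine Finset.sum_congr rfl fun w _ => ?_
    rw [Real.log_pow]
  · intro w _
    exact (pow_pos (w_pos w hz) _).ne'

theorem Lw_mul (w : InfinitePlace K) {a b : K} (ha : a ≠ 0) (hb : b ≠ 0) :
    Lw w (a * b) = Lw w a + Lw w b := by
  unfold Lw
  rw [map_mul, Real.log_mul (w_pos w ha).ne' (w_pos w hb).ne', map_mul, Rat.cast_mul, abs_mul,
    Real.log_mul (abs_ne_zero.mpr (norm_ne_zero' ha)) (abs_ne_zero.mpr (norm_ne_zero' hb))]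
  ring

theorem Lw_pow (w : InfinitePlace K) (a : K) (l : ℕ) :
    Lw w (a ^ l) = l * Lw w a := by
  unfold Lw
  rw [map_pow, Real.log_pow, map_pow, Rat.cast_pow, abs_pow, Real.log_pow]
  ring

theorem Lw_natCast (w : InfinitePlace K) {p : ℕ} : Lw w (p : K) = 0 := by
  unfold Lw
  have h1 : Algebra.norm ℚ ((p : ℕ) : K) = (p : ℚ) ^ Module.finrank ℚ K := by
    have := Algebra.norm_algebraMap (R := ℚ) (S := K) (p : ℚ)
    rw [← this]
    simp
  have h2 : w ((p : ℕ) : K) = p := by
    rw [← InfinitePlace.norm_embedding_eq, map_natCast, Complex.norm_natCast]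
  rw [h1, h2]
  push_cast
  rw [abs_pow, Nat.abs_cast, Real.log_pow, mul_div_cancel_left₀, sub_self]
  exact_mod_cast (Module.finrank_pos (R := ℚ) (M := K)).ne'

/-- Minkowski's theorem for an integral ideal, uniform bounds at all places -/
theorem mink {n : ℕ} (hn : Module.finrank ℚ K = n) (B : (Ideal (𝓞 K))⁰) (N : ℕ)
    (hN : 2 ^ n * √|(discr K : ℝ)| < N) :
    ∃ a : 𝓞 K, a ∈ (B : Ideal (𝓞 K)) ∧ a ≠ 0 ∧
      ∀ w : InfinitePlace K, w (a : K) ^ n < N * Ideal.absNorm (B : Ideal (𝓞 K)) := by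
  have hn0 : n ≠ 0 := by rw [← hn]; exact (Module.finrank_pos (R := ℚ) (M := K)).ne'
  have hB : (0 : ℝ) < Ideal.absNorm (B : Ideal (𝓞 K)) := by
    exact_mod_cast absNorm_pos (nonZeroDivisors.coe_ne_zero B)
  have hN0 : (0 : ℝ) < N := lt_of_le_of_lt (by positivity) hN
  set X : ℝ := N * Ideal.absNorm (B : Ideal (𝓞 K)) with hX
  have hX0 : 0 < X := by positivity
  set t : ℝ≥0 := ⟨X ^ ((n : ℝ)⁻¹), by positivity⟩ with ht
  have htn : (t : ℝ) ^ n = X := by
    rw [ht]
    change (X ^ ((n : ℝ)⁻¹)) ^ n = X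
    rw [← Real.rpow_natCast, ← Real.rpow_mul hX0.le, inv_mul_cancel₀ (by exact_mod_cast hn0),
      Real.rpow_one]
  have key : mixedEmbedding.minkowskiBound K (FractionalIdeal.mk0 K B) <
      MeasureTheory.volume (mixedEmbedding.convexBodyLT K (fun _ => t)) := by
    rw [mixedEmbedding.convexBodyLT_volume, mixedEmbedding.minkowskiBound,
      mixedEmbedding.volume_fundamentalDomain_fractionalIdealLatticeBasis,
      mixedEmbedding.volume_fundamentalDomain_latticeBasis, mixedEmbedding.finrank, hn,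
      FractionalIdeal.coe_mk0, FractionalIdeal.coeIdeal_absNorm]
    have e1 : (∏ w : InfinitePlace K, t ^ mult w) = t ^ n := by
      rw [Finset.prod_pow_eq_pow_sum, InfinitePlace.sum_mult_eq, hn]
    rw [e1]
    have e3 : ENNReal.ofReal ((((Ideal.absNorm (B : Ideal (𝓞 K)) : ℕ) : ℚ) : ℚ) : ℝ) =
        (((Ideal.absNorm (B : Ideal (𝓞 K)) : ℕ) : ℝ≥0) : ℝ≥0∞) := by
      rw [Rat.cast_natCast, ENNReal.ofReal_natCast]
      rfl
    rw [e3]
    have e4 : ((2 : ℝ≥0∞)⁻¹ ^ nrComplexPlaces K) ≤ 1 := by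
      apply pow_le_one₀ zero_le
      rw [ENNReal.inv_le_one]
      norm_num
    have e5 : (1 : ℝ≥0∞) ≤ (mixedEmbedding.convexBodyLTFactor K : ℝ≥0∞) := by
      exact_mod_cast mixedEmbedding.one_le_convexBodyLTFactor K
    have e6 : (((Ideal.absNorm (B : Ideal (𝓞 K)) : ℕ) : ℝ≥0) : ℝ≥0∞) *
        (1 * (NNReal.sqrt ‖discr K‖₊ : ℝ≥0∞)) * 2 ^ n < ((t ^ n : ℝ≥0) : ℝ≥0∞) := by
      rw [one_mul]
      have e7 : (((Ideal.absNorm (B : Ideal (𝓞 K)) : ℕ) : ℝ≥0) * (NNReal.sqrt ‖discr K‖₊) * 2 ^ n)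
          < (t ^ n : ℝ≥0) := by
        rw [← NNReal.coe_lt_coe]
        push_cast
        rw [htn, hX]
        have e8 : ‖(discr K)‖ = |(discr K : ℝ)| := by
          rw [Int.norm_eq_abs]
        rw [e8]
        nlinarith
      exact_mod_cast e7
    calc _ ≤ (((Ideal.absNorm (B : Ideal (𝓞 K)) : ℕ) : ℝ≥0) : ℝ≥0∞) *
        (1 * (NNReal.sqrt ‖discr K‖₊ : ℝ≥0∞)) * 2 ^ n := by gcongr
      _ < _ := e6
      _ = 1 * ((t ^ n : ℝ≥0) : ℝ≥0∞) := (one_mul _).symm
      _ ≤ _ := by gcongr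
  obtain ⟨a, ha, ha0, haw⟩ := mixedEmbedding.exists_ne_zero_mem_ideal_lt K _ key
  rw [FractionalIdeal.coe_mk0, FractionalIdeal.mem_coeIdeal] at ha
  obtain ⟨b, hb, rfl⟩ := ha
  refine ⟨b, hb, ?_, ?_⟩
  · rintro rfl
    rw [map_zero] at ha0
    exact ha0 rfl
  · intro w
    have h1 := haw w
    have h2 : w ((algebraMap (𝓞 K) K) b) ^ n < (t : ℝ) ^ n :=
      pow_lt_pow_left₀ h1 (apply_nonneg _ _) hn0
    rw [htn] at h2
    exact h2

/-- the packing inequality -/
theorem pack {n : ℕ} (hn : Module.finrank ℚ K = n) (N : ℕ)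
    (hN : 2 ^ n * √|(discr K : ℝ)| < N) (ι : Type) [Fintype ι] (B : ι → (Ideal (𝓞 K))⁰)
    (hB : ∀ i j : ι, ∀ a b : 𝓞 K, a ≠ 0 → b ≠ 0 →
      Ideal.span {a} * (B j : Ideal (𝓞 K)) = Ideal.span {b} * (B i : Ideal (𝓞 K)) →
      (∀ w : InfinitePlace K, |Lw w (a : K) - Lw w (b : K)| < 1) → i = j) :
    (Fintype.card ι : ℝ) ≤
      ∑ J ∈ FI K N, (1 + Real.log ((N : ℝ) / Ideal.absNorm J)) ^ n := by
  have hn0 : n ≠ 0 := by rw [← hn]; exact (Module.finrank_pos (R := ℚ) (M := K)).ne'
  have hnr : (0 : ℝ) < n := by exact_mod_cast Nat.pos_of_ne_zero hn0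
  have hN0 : (0 : ℝ) < N := lt_of_le_of_lt (by positivity) hN
  choose a ha ha0 haw using fun i => mink hn (B i) N hN
  have haK : ∀ i, ((a i : 𝓞 K) : K) ≠ 0 := fun i => by exact_mod_cast ha0 i
  have hdvd : ∀ i, ∃ J : Ideal (𝓞 K), Ideal.span {a i} = (B i : Ideal (𝓞 K)) * J := by
    intro i
    have : (B i : Ideal (𝓞 K)) ∣ Ideal.span {a i} := by
      rw [Ideal.dvd_iff_le, Ideal.span_le, Set.singleton_subset_iff]
      exact ha i
    exact this
  choose J hJ using hdvd
  have hNB : ∀ i, (0 : ℝ) < Ideal.absNorm (B i : Ideal (𝓞 K)) := fun i => by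
    exact_mod_cast absNorm_pos (nonZeroDivisors.coe_ne_zero (B i))
  have hJ0 : ∀ i, J i ≠ ⊥ := by
    intro i h
    have := hJ i
    rw [h, Ideal.mul_bot, Ideal.span_singleton_eq_bot] at this
    exact ha0 i this
  have hNJ : ∀ i, (0 : ℝ) < Ideal.absNorm (J i) := fun i => by
    exact_mod_cast absNorm_pos (hJ0 i)
  have hnorm : ∀ i, |((Algebra.norm ℚ ((a i : 𝓞 K) : K) : ℚ) : ℝ)| =
      Ideal.absNorm (B i : Ideal (𝓞 K)) * Ideal.absNorm (J i) := by
    intro i
    have h1 : (Algebra.norm ℤ (a i)).natAbs =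
        Ideal.absNorm (B i : Ideal (𝓞 K)) * Ideal.absNorm (J i) := by
      rw [← Ideal.absNorm_span_singleton, hJ i, map_mul]
    rw [← Algebra.coe_norm_int]
    have h2 : |(((Algebra.norm ℤ (a i) : ℤ) : ℚ) : ℝ)| =
        (((Algebra.norm ℤ (a i)).natAbs : ℕ) : ℝ) := by
      rw [Nat.cast_natAbs]
      push_cast
      rfl
    rw [h2, h1]
    push_cast
    rfl
  -- the coordinates
  set u : ι → InfinitePlace K → ℝ := fun i w =>
    Real.log (N * Ideal.absNorm (B i : Ideal (𝓞 K))) / n - Real.log (w ((a i : 𝓞 K) : K)) with hu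
  have hu0 : ∀ i w, 0 < u i w := by
    intro i w
    have h1 := haw i w
    have h2 := Real.log_lt_log (pow_pos (w_pos w (haK i)) n) h1
    rw [Real.log_pow] at h2
    simp only [hu]
    rw [sub_pos, lt_div_iff₀ hnr]
    linarith
  have husum : ∀ i, ∑ w : InfinitePlace K, (mult w : ℝ) * u i w =
      Real.log ((N : ℝ) / Ideal.absNorm (J i)) := by
    intro i
    have h1 := log_norm (haK i)
    rw [hnorm i, Real.log_mul (hNB i).ne' (hNJ i).ne'] at h1
    have h2 : ∑ w : InfinitePlace K, (mult w : ℝ) * u i w =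
        (∑ w : InfinitePlace K, (mult w : ℝ)) *
          (Real.log (N * Ideal.absNorm (B i : Ideal (𝓞 K))) / n) -
        ∑ w : InfinitePlace K, (mult w : ℝ) * Real.log (w ((a i : 𝓞 K) : K)) := by
      rw [Finset.sum_mul, ← Finset.sum_sub_distrib]
      refine Finset.sum_congr rfl fun w _ => ?_
      simp only [hu]
      ring
    have h3 : (∑ w : InfinitePlace K, (mult w : ℝ)) = n := by
      have := InfinitePlace.sum_mult_eq (K := K)
      rw [hn] at this
      exact_mod_cast this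
    rw [h2, h3, ← h1, Real.log_mul hN0.ne' (hNB i).ne', Real.log_div hN0.ne' (hNJ i).ne']
    field_simp
    ring
  have hule : ∀ i w, u i w ≤ Real.log ((N : ℝ) / Ideal.absNorm (J i)) := by
    intro i w
    rw [← husum i]
    have h1 : u i w ≤ (mult w : ℝ) * u i w := by
      have : (1 : ℝ) ≤ mult w := by exact_mod_cast InfinitePlace.one_le_mult
      nlinarith [hu0 i w]
    refine h1.trans ?_
    exact Finset.single_le_sum (f := fun w : InfinitePlace K => (mult w : ℝ) * u i w)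
      (fun w _ => mul_nonneg (Nat.cast_nonneg _) (hu0 i w).le) (Finset.mem_univ w)
  have hlog0 : ∀ i, 0 ≤ Real.log ((N : ℝ) / Ideal.absNorm (J i)) := by
    intro i
    rw [← husum i]
    exact Finset.sum_nonneg fun w _ => mul_nonneg (Nat.cast_nonneg _) (hu0 i w).le
  have hJN : ∀ i, J i ∈ FI K N := by
    intro i
    rw [mem_FI]
    refine ⟨?_, hJ0 i⟩
    have h1 : 1 ≤ (N : ℝ) / Ideal.absNorm (J i) := by
      by_contra hcon
      push Not at hcon
      have := Real.log_neg (by have := hNJ i; positivity) hcon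
      linarith [hlog0 i]
    rw [le_div_iff₀ (hNJ i), one_mul] at h1
    exact_mod_cast h1
  have hLw : ∀ i w, Lw w ((a i : 𝓞 K) : K) =
      (Real.log N - Real.log (Ideal.absNorm (J i))) / n - u i w := by
    intro i w
    unfold Lw
    rw [hnorm i, hn, Real.log_mul (hNB i).ne' (hNJ i).ne']
    simp only [hu]
    rw [Real.log_mul hN0.ne' (hNB i).ne']
    ring
  -- injectivity
  have hinj : ∀ i j : ι, J i = J j → (∀ w, ⌊u i w⌋₊ = ⌊u j w⌋₊) → i = j := by
    intro i j hij hfl
    refine hB i j (a i) (a j) (ha0 i) (ha0 j) ?_ ?_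
    · rw [hJ i, hJ j, hij]
      ring
    · intro w
      rw [hLw i w, hLw j w, hij]
      have h1 := Nat.floor_le (hu0 i w).le
      have h2 := Nat.lt_floor_add_one (u i w)
      have h3 := Nat.floor_le (hu0 j w).le
      have h4 := Nat.lt_floor_add_one (u j w)
      rw [hfl w] at h1 h2
      rw [abs_lt]
      constructor <;> linarith
  have hcard : Fintype.card ι = ∑ I ∈ FI K N, (univ.filter (fun i => J i = I)).card := by
    rw [← Finset.card_univ]
    exact Finset.card_eq_sum_card_fiberwise fun i _ => hJN i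
  rw [hcard, Nat.cast_sum]
  refine Finset.sum_le_sum fun I hI => ?_
  by_cases hne : (univ.filter (fun i => J i = I)).Nonempty
  · obtain ⟨i0, hi0⟩ := hne
    rw [mem_filter] at hi0
    have hL0 : 0 ≤ Real.log ((N : ℝ) / Ideal.absNorm I) := by
      rw [← hi0.2]; exact hlog0 i0
    set m := ⌊Real.log ((N : ℝ) / Ideal.absNorm I)⌋₊ with hm
    have h1 : (univ.filter (fun i => J i = I)).card ≤
        (Fintype.piFinset (fun _ : InfinitePlace K => range (m + 1))).card := by
      refine Finset.card_le_card_of_injOn (fun i w => ⌊u i w⌋₊) ?_ ?_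
      · intro i hi
        rw [Finset.mem_coe, mem_filter] at hi
        rw [Finset.mem_coe, Fintype.mem_piFinset]
        intro w
        rw [mem_range]
        have h2 := hule i w
        rw [hi.2] at h2
        have h3 : ⌊u i w⌋₊ ≤ m := Nat.floor_le_floor h2
        exact Nat.lt_succ_of_le h3
      · intro i hi j hj hij
        rw [Finset.mem_coe, mem_filter] at hi hj
        exact hinj i j (by rw [hi.2, hj.2]) fun w => congrFun hij w
    rw [Fintype.card_piFinset, Finset.prod_const, Finset.card_range, Finset.card_univ] at h1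
    have h2 : Fintype.card (InfinitePlace K) ≤ n := by
      rw [← hn, ← InfinitePlace.sum_mult_eq (K := K), Fintype.card_eq_sum_ones]
      exact Finset.sum_le_sum fun w _ => Nat.succ_le_of_lt InfinitePlace.mult_pos
    have h3 : ((m : ℝ) + 1) ≤ 1 + Real.log ((N : ℝ) / Ideal.absNorm I) := by
      have := Nat.floor_le hL0
      rw [← hm] at this
      linarith
    calc ((univ.filter (fun i => J i = I)).card : ℝ)
        ≤ (((m + 1) ^ Fintype.card (InfinitePlace K) : ℕ) : ℝ) := by exact_mod_cast h1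
      _ = ((m : ℝ) + 1) ^ Fintype.card (InfinitePlace K) := by push_cast; rfl
      _ ≤ ((m : ℝ) + 1) ^ n := by
          refine pow_le_pow_right₀ ?_ h2
          have : (0 : ℝ) ≤ m := by positivity
          linarith
      _ ≤ _ := by gcongr
  · rw [Finset.not_nonempty_iff_eq_empty] at hne
    rw [hne]
    rw [mem_FI] at hI
    have h4 : (0 : ℝ) < Ideal.absNorm I := by exact_mod_cast absNorm_pos hI.2
    have h5 : 1 ≤ (N : ℝ) / Ideal.absNorm I := by
      rw [le_div_iff₀ h4, one_mul]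
      exact_mod_cast hI.1
    have := Real.log_nonneg h5
    simp only [Finset.card_empty, Nat.cast_zero]
    positivity

end Pool.Agent.TH847.LG
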